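import Pool.Agent.V7H20.ZF.DegP

/-!
Algebraic numbers of bounded degree over a number field which are near to no conjugates of given points
of the projective line at the places given by embeddings into the algebraic closures of the fields of
`p`-adic numbers (helper file).
-/

set_option autoImplicit false

namespace Pool.Agent.V7H20.ZF

open Polynomial Pool.Agent.Y199.DM Pool.Agent.Y199.ZF

/-- `t` is near to `a` at no place, given by an embedding, at which the elements of `W` are integral. -/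
def FarT (W : Set ℂ) (t : ℂ) (a : Option ℂ) : Prop :=
  ∀ (p : ℕ) (_ : Fact p.Prime) (τ : ℂ →+* PadicAlgCl p), (∀ x ∈ W, ‖τ x‖ ≤ 1) →
    ¬ NearAt (ringOf τ) t a

theorem Far.farT {W : Set ℂ} {t : ℂ} {a : Option ℂ} (h : Far W t a) : FarT W t a :=
  fun _ _ τ hτ => h (ringOf τ) fun z hz => (mem_ringOf τ).2 (hτ z hz)

theorem FarT.mono {W W' : Set ℂ} (h : W ⊆ W') {t : ℂ} {a : Option ℂ} (hf : FarT W t a) :
    FarT W' t a := fun p hp τ hτ => hf p hp τ fun z hz => hτ z (h hz)

theorem lt_of_val {p : ℕ} [Fact p.Prime] (τ : ℂ →+* PadicAlgCl p) {x : ℂ}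
    (hx : (ringOf τ).valuation x < 1) : ‖τ x‖ < 1 := by
  rcases (val_lt_one _ _).1 hx with rfl | h
  · rw [map_zero, norm_zero]
    exact zero_lt_one
  · rw [mem_ringOf, map_inv₀, norm_inv] at h
    by_contra h1
    push Not at h1
    exact h (inv_le_one_of_one_le₀ h1)

theorem farT_some {s : Finset ℂ} {a u : ℂ} : FarT (s : Set ℂ) u (some a) ↔ ¬ Near s a u := by
  constructor
  · rintro h ⟨p, hp, τ, hτ, hlt⟩
    exact h p hp τ (fun z hz => hτ z hz) (val_ringOf τ hlt)
  · intro h p hp τ hτ hn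
    exact h ⟨p, hp, τ, fun z hz => hτ z hz, lt_of_val τ hn⟩

/-- Change of the coordinate. -/
theorem near_mob {W' : Set ℂ} {a0 t : ℂ} (hta : t ≠ a0) {b : Option ℂ} (hb : b ≠ some a0)
    (ha0 : a0 ∈ W') (hbW : b.getD 0 ∈ W') (hcW : mob a0 b ∈ W') (V : ValuationSubring ℂ)
    (hV : ∀ z ∈ W', z ∈ V) (hnear : NearAt V (t - a0)⁻¹ (some (mob a0 b))) : NearAt V t b := by
  have hta' : t - a0 ≠ 0 := sub_ne_zero.2 hta
  have hV1 : V.valuation ((t - a0)⁻¹ - Pool.Agent.V7H20.ZF.mob a0 b) < 1 := hnear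
  have ha0V : a0 ∈ V := hV _ ha0
  rcases b with _ | z
  · rw [mob_none, sub_zero] at hV1
    change 1 < V.valuation t
    by_contra h1
    push Not at h1
    have h2 : t ∈ V := (ValuationSubring.valuation_le_one_iff _ _).1 h1
    have h3 : t - a0 ∈ V := sub_mem h2 ha0V
    rcases (val_lt_one V _).1 hV1 with h4 | h4
    · exact inv_ne_zero hta' h4
    · rw [inv_inv] at h4
      exact h4 h3
  · change V.valuation (t - z) < 1
    have hz : z ∈ V := hV _ hbW
    have hzc : (z - a0)⁻¹ ∈ V := by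
      rw [← mob_some]
      exact hV _ hcW
    have hz0 : z - a0 ≠ 0 := fun h0 => hb (by rw [sub_eq_zero.1 h0])
    have hvc : V.valuation (z - a0) = 1 := by
      refine le_antisymm ((ValuationSubring.valuation_le_one_iff _ _).2 (sub_mem hz ha0V)) ?_
      have h5 := (ValuationSubring.valuation_le_one_iff _ _).2 hzc
      rw [map_inv₀] at h5
      exact (inv_le_one₀ (zero_lt_iff.2 ((Valuation.ne_zero_iff _).2 hz0))).1 h5
    rw [mob_some] at hV1
    have hvu : V.valuation (t - a0)⁻¹ = 1 := by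
      have h6 : V.valuation (z - a0)⁻¹ = 1 := by rw [map_inv₀, hvc, inv_one]
      rw [← h6]
      refine Valuation.map_eq_of_sub_lt _ ?_
      rw [h6]
      exact hV1
    have hvt : V.valuation (t - a0) = 1 := by
      rw [map_inv₀] at hvu
      exact inv_eq_one.1 hvu
    have h7 : t - z = ((z - a0)⁻¹ - (t - a0)⁻¹) * ((t - a0) * (z - a0)) := by
      field_simp
      ring
    rw [h7, map_mul, map_mul, hvt, hvc, mul_one, mul_one, Valuation.map_sub_swap]
    exact hV1

theorem FarT.mob {W W' : Set ℂ} {a0 t : ℂ} (hta : t ≠ a0) {b : Option ℂ} (hb : b ≠ some a0)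
    (hW : W ⊆ W') (ha0 : a0 ∈ W') (hbW : b.getD 0 ∈ W') (hcW : mob a0 b ∈ W')
    (h : FarT W t b) : FarT W' (t - a0)⁻¹ (some (mob a0 b)) := fun p hp τ hτ hn =>
  h p hp τ (fun z hz => hτ z (hW hz))
    (near_mob hta hb ha0 hbW hcW (ringOf τ) (fun z hz => (mem_ringOf τ).2 (hτ z hz)) hn)

/-- All but finitely many algebraic numbers of degree at most `d` are near to a conjugate of one of
`2 d + 1` points. -/
theorem finite_farT_deg (E : IntermediateField ℚ ℂ) [FiniteDimensional ℚ E] (W : Finset ℂ) (d : ℕ)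
    (b : Fin (2 * d + 1) → Option ℂ) (hb : Function.Injective b)
    (halg : ∀ i, ∀ z ∈ b i, IsAlgebraic ℚ z) :
    {t : ℂ | IsAlgebraic E t ∧ (minpoly E t).natDegree ≤ d ∧
      ∀ i, ∀ b' ∈ ConjugatesOver E (b i), FarT (W : Set ℂ) t b'}.Finite := by
  classical
  have hint : ∀ i, ∀ z ∈ b i, IsIntegral E z := fun i z hz =>
    ((halg i z hz).extendScalars (algebraMap ℚ E).injective).isIntegral
  let C : Set (Option ℂ) := ⋃ i, ConjugatesOver E (b i)
  have hC : C.Finite := Set.finite_iUnion fun i => conj_finite (hint i)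
  have hself : ∀ i, b i ∈ ConjugatesOver E (b i) := by
    intro i
    rcases hi : b i with _ | z
    · rfl
    · exact ⟨z, rfl, minpoly.aeval E z⟩
  haveI : Finite C := hC
  obtain ⟨k, hk⟩ := exists_nat (fun x : C => (x : Option ℂ))
  let a0 : ℂ := (k : ℂ)
  have hk' : ∀ i, ∀ b' ∈ ConjugatesOver E (b i), b' ≠ some a0 := fun i b' hb' =>
    hk ⟨b', Set.mem_iUnion.2 ⟨i, hb'⟩⟩
  have ha0E : a0 ∈ E := natCast_mem E k
  let W' : Finset ℂ := W ∪ ({a0} ∪ (hC.toFinset.image (fun x => x.getD 0) ∪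
    hC.toFinset.image (mob a0)))
  have hW0 : (W : Set ℂ) ⊆ W' := by
    intro z hz
    simp only [W', Finset.coe_union, Set.mem_union]
    exact Or.inl hz
  have hW1 : a0 ∈ (W' : Set ℂ) := by simp [W']
  have hW2 : ∀ i, ∀ b' ∈ ConjugatesOver E (b i), b'.getD 0 ∈ (W' : Set ℂ) := by
    intro i b' hb'
    simp only [W', Finset.coe_union, Set.mem_union, Finset.mem_coe, Finset.mem_image,
      Set.Finite.mem_toFinset]
    exact Or.inr (Or.inr (Or.inl ⟨b', Set.mem_iUnion.2 ⟨i, hb'⟩, rfl⟩))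
  have hW3 : ∀ i, ∀ b' ∈ ConjugatesOver E (b i), mob a0 b' ∈ (W' : Set ℂ) := by
    intro i b' hb'
    simp only [W', Finset.coe_union, Set.mem_union, Finset.mem_coe, Finset.mem_image,
      Set.Finite.mem_toFinset]
    exact Or.inr (Or.inr (Or.inr ⟨b', Set.mem_iUnion.2 ⟨i, hb'⟩, rfl⟩))
  -- the points in the new coordinate
  let c : Fin (2 * d + 1) → ℂ := fun i => mob a0 (b i)
  have hc : Function.Injective c := fun i j hij =>
    hb (mob_inj (hk' i _ (hself i)) (hk' j _ (hself j)) hij)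
  have hcalg : ∀ i, IsAlgebraic ℚ (c i) := by
    intro i
    rcases hi : b i with _ | z
    · simp only [c, hi, mob_none]
      exact isAlgebraic_zero
    · simp only [c, hi, mob_some]
      have h1 : IsAlgebraic ℚ a0 := by
        have h2 := isAlgebraic_algebraMap (R := ℚ) (A := ℂ) (k : ℚ)
        rw [map_natCast] at h2
        exact h2
      exact ((halg i z (by rw [hi]; rfl)).sub h1).inv
  have hle : ∀ e : Fin (d + 1), 2 * (e : ℕ) + 1 ≤ 2 * d + 1 := fun e => by
    have := e.2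
    omega
  have hfin : ∀ e : Fin (d + 1), {u : ℂ | IsAlgebraic E u ∧ (minpoly E u).natDegree = (e : ℕ) ∧
      ∀ i : Fin (2 * (e : ℕ) + 1), ∀ c' : ℂ,
        aeval c' (minpoly E (c (Fin.castLE (hle e) i))) = 0 → ¬ Near W' c' u}.Finite := by
    intro e
    exact finite_core E W' e (fun i => c (Fin.castLE (hle e) i))
      (hc.comp (Fin.castLE_injective _)) (fun i => hcalg _)
  refine (((Set.finite_iUnion fun e => hfin e).preimage (f := fun t : ℂ => (t - a0)⁻¹)
    (fun x _ y _ h => ?_)).union (Set.finite_singleton a0)).subset ?_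
  · have h1 : x - a0 = y - a0 := inv_injective h
    exact sub_left_injective h1
  rintro t ⟨ht, htd, hfar⟩
  by_cases hta : t = a0
  · exact Or.inr hta
  left
  obtain ⟨hu, hudeg⟩ := degree_mob ha0E ht.isIntegral hta
  refine Set.mem_iUnion.2 ⟨⟨(minpoly E t).natDegree, by omega⟩, hu.isAlgebraic, hudeg,
    fun i c' hc' => ?_⟩
  set i' : Fin (2 * d + 1) := Fin.castLE (hle ⟨(minpoly E t).natDegree, by omega⟩) i with hi'
  -- the conjugate
  obtain ⟨b', hb', hbc⟩ : ∃ b' ∈ ConjugatesOver E (b i'), mob a0 b' = c' := by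
    rcases hi : b i' with _ | z
    · refine ⟨none, rfl, ?_⟩
      simp only [c, hi, mob_none] at hc'
      rw [minpoly.zero, aeval_X] at hc'
      rw [mob_none, hc']
    · have hz : IsIntegral E z := hint i' z (by rw [hi]; rfl)
      have ha : IsIntegral E a0 := isIntegral_algebraMap (x := (⟨a0, ha0E⟩ : E))
      have hcz : c i' = (z - a0)⁻¹ := by
        simp only [c, hi, mob_some]
      have hz0 : z - a0 ≠ 0 := fun h0 => hk' i' _ (hself i') (by
        rw [hi, sub_eq_zero.1 h0])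
      rw [hcz] at hc'
      obtain ⟨hy', σ, hσ⟩ := exists_aut ((hz.sub ha).inv) hc'
      let z' : algebraicClosure E ℂ := ⟨z, mem_algebraicClosure_iff'.2 hz⟩
      let u' : algebraicClosure E ℂ := ⟨(z - a0)⁻¹, mem_algebraicClosure_iff'.2 ((hz.sub ha).inv)⟩
      have hu' : z' = u'⁻¹ + algebraMap E _ ⟨a0, ha0E⟩ := by
        apply Subtype.ext
        change z = ((z - a0)⁻¹)⁻¹ + a0
        rw [inv_inv, sub_add_cancel]
      have hσz : ((σ z' : algebraicClosure E ℂ) : ℂ) = c'⁻¹ + a0 := by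
        rw [hu', map_add, map_inv₀, AlgEquiv.commutes, hσ]
        rfl
      refine ⟨some (c'⁻¹ + a0), ⟨_, rfl, ?_⟩, ?_⟩
      · have h1 := root_of_aut σ z'
        rw [hσz] at h1
        exact h1
      · rw [mob_some, add_sub_cancel_right, inv_inv]
  rw [← hbc]
  exact farT_some.1 ((hfar i' b' hb').mob hta (hk' i' b' hb') hW0 hW1 (hW2 i' b' hb')
    (hW3 i' b' hb'))

/-- The exceptional parameters of bounded degree. -/
theorem finite_excT_deg {M : ℕ} (E : IntermediateField ℚ ℂ) [FiniteDimensional ℚ E]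
    (W G : Finset ℂ) (d : ℕ) (Z : Set (Option ℂ)) (hZ : ∀ z ∈ Z, ConjugatesOver E z ⊆ Z)
    (hZa : ∀ z ∈ Z, ∀ x ∈ z, IsAlgebraic ℚ x) (α : Fin M → Option ℂ)
    (hα : ∀ l, ∀ x ∈ α l, IsAlgebraic ℚ x) (I : Finset (Fin M))
    (h : ¬ (Z ∪ ⋃ l ∈ I, ConjugatesOver E (α l)).encard ≤ (2 * d : ℕ)) :
    {t : ℂ | IsAlgebraic E t ∧ (minpoly E t).natDegree ≤ d ∧
      (∀ z ∈ Z, IntegralAt (G : Set ℂ) t z) ∧
      ∀ l ∈ I, ∀ b ∈ ConjugatesOver E (α l), FarT (W : Set ℂ) t b}.Finite := by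
  classical
  obtain ⟨b, hb, hbP⟩ := many_of h
  have hαi : ∀ l, ∀ x ∈ α l, IsIntegral E x := fun l x hx =>
    ((hα l x hx).extendScalars (algebraMap ℚ E).injective).isIntegral
  haveI hEalg : Algebra.IsAlgebraic ℚ E := Algebra.IsAlgebraic.of_finite ℚ E
  have hbalg : ∀ i, ∀ z ∈ b i, IsAlgebraic ℚ z := by
    intro i z hz
    rcases hbP i with hi | hi
    · exact hZa _ hi z hz
    · obtain ⟨l, hl, hi⟩ := Set.mem_iUnion₂.1 hi
      exact (conj_integral (hαi l) hi z hz).isAlgebraic.restrictScalars ℚ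
  refine (finite_farT_deg E (W ∪ G) d b hb hbalg).subset ?_
  rintro t ⟨ht, htd, h1, h2⟩
  refine ⟨ht, htd, fun i b' hb' => ?_⟩
  rcases hbP i with hi | hi
  · refine (h1 b' (hZ _ hi hb')).far.farT.mono ?_
    intro z hz
    rw [Finset.coe_union]
    exact Or.inr hz
  · obtain ⟨l, hl, hi⟩ := Set.mem_iUnion₂.1 hi
    refine (h2 l hl b' (conj_trans (hαi l) hi hb')).mono ?_
    intro z hz
    rw [Finset.coe_union]
    exact Or.inl hz

end Pool.Agent.V7H20.ZF
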