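import Pool.Agent.Y199.ZF.Fam

/-!
Places at which a number is near to a point of the projective line, and the values of polynomials at
such places (helper file).
-/

set_option autoImplicit false

namespace Pool.Agent.V7H20.ZF

open Polynomial

/-- `t` is near to the point `a` of the projective line (`none` is the point at infinity) at the
place `V`. -/
def NearAt (V : ValuationSubring ℂ) (t : ℂ) : Option ℂ → Prop
  | some a => V.valuation (t - a) < 1
  | none => 1 < V.valuation t

/-- `t` is near to `a` at no place at which the elements of `W` are integral. -/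
def Far (W : Set ℂ) (t : ℂ) (a : Option ℂ) : Prop :=
  ∀ V : ValuationSubring ℂ, (∀ z ∈ W, z ∈ V) → ¬ NearAt V t a

theorem Far.mono {W W' : Set ℂ} (h : W ⊆ W') {t : ℂ} {a : Option ℂ} (hf : Far W t a) :
    Far W' t a := fun V hV => hf V fun z hz => hV z (h hz)

theorem val_lt_one (V : ValuationSubring ℂ) (x : ℂ) :
    V.valuation x < 1 ↔ x = 0 ∨ x⁻¹ ∉ V := by
  constructor
  · intro h
    by_cases hx : x = 0
    · exact Or.inl hx
    · right
      intro h1
      have h2 := (ValuationSubring.valuation_le_one_iff _ _).2 h1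
      rw [map_inv₀] at h2
      have h3 : V.valuation x ≠ 0 := (Valuation.ne_zero_iff _).2 hx
      exact absurd h (not_lt.2 ((inv_le_one₀ (zero_lt_iff.2 h3)).1 h2))
  · rintro (rfl | h)
    · rw [map_zero]
      exact zero_lt_one
    · by_contra h1
      push Not at h1
      apply h
      rw [← ValuationSubring.valuation_le_one_iff, map_inv₀]
      exact inv_le_one_of_one_le₀ h1

/-- Conjugation. -/
theorem Far.conj {W : Set ℂ} {t : ℂ} {a : Option ℂ} (h : Far W t a) (σ : ℂ ≃+* ℂ)
    (hσ : σ t = t) : Far (σ '' W) t (a.map σ) := by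
  intro V hV hnear
  let V' : ValuationSubring ℂ := V.comap σ.toRingHom
  have hmem : ∀ x : ℂ, x ∈ V' ↔ σ x ∈ V := fun x => Iff.rfl
  refine h V' (fun z hz => (hmem z).2 (hV _ ⟨z, hz, rfl⟩)) ?_
  rcases a with _ | a
  · have h1 : 1 < V.valuation t := hnear
    change 1 < V'.valuation t
    by_contra h2
    push Not at h2
    have h3 := (hmem t).1 ((ValuationSubring.valuation_le_one_iff _ _).1 h2)
    rw [hσ] at h3
    exact absurd h1 (not_lt.2 ((ValuationSubring.valuation_le_one_iff _ _).2 h3))
  · have h1 : V.valuation (t - σ a) < 1 := hnear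
    change V'.valuation (t - a) < 1
    have h2 : t - σ a = σ (t - a) := by rw [map_sub, hσ]
    rw [h2, val_lt_one] at h1
    rw [val_lt_one]
    rcases h1 with h1 | h1
    · left
      exact (map_eq_zero_iff σ σ.injective).1 h1
    · right
      intro h3
      apply h1
      rw [← map_inv₀]
      exact (hmem _).1 h3

/-- The map `z ↦ 1 / (z - a)` of the projective line, except at `a`. -/
noncomputable def mob (a0 : ℂ) (b : Option ℂ) : ℂ := (b.map fun z => (z - a0)⁻¹).getD 0

theorem mob_some (a0 z : ℂ) : mob a0 (some z) = (z - a0)⁻¹ := by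
  simp only [mob, Option.map_some, Option.getD_some]

theorem mob_none (a0 : ℂ) : mob a0 none = 0 := by
  simp only [mob, Option.map_none, Option.getD_none]

theorem mob_inj {a0 : ℂ} {b c : Option ℂ} (hb : b ≠ some a0) (hc : c ≠ some a0)
    (h : mob a0 b = mob a0 c) : b = c := by
  have hne : ∀ z, some z ≠ some a0 → z - a0 ≠ 0 := fun z hz h0 =>
    hz (by rw [sub_eq_zero.1 h0])
  rcases b with _ | z
  · rcases c with _ | w
    · rfl
    · rw [mob_none, mob_some] at h
      exact absurd h.symm (inv_ne_zero (hne w hc))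
  · rcases c with _ | w
    · rw [mob_none, mob_some] at h
      exact absurd h (inv_ne_zero (hne z hb))
    · rw [mob_some, mob_some] at h
      have h1 := inv_injective h
      rw [sub_left_inj] at h1
      rw [h1]

/-- Change of the coordinate. -/
theorem Far.mob {W W' : Set ℂ} {a0 t : ℂ} (hta : t ≠ a0) {b : Option ℂ} (hb : b ≠ some a0)
    (hW : W ⊆ W') (ha0 : a0 ∈ W') (hbW : b.getD 0 ∈ W') (hcW : mob a0 b ∈ W')
    (h : Far W t b) : Far W' (t - a0)⁻¹ (some (mob a0 b)) := by
  intro V hV hnear
  have hta' : t - a0 ≠ 0 := sub_ne_zero.2 hta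
  have hV1 : V.valuation ((t - a0)⁻¹ - Pool.Agent.V7H20.ZF.mob a0 b) < 1 := hnear
  have ha0V : a0 ∈ V := hV _ ha0
  refine h V (fun z hz => hV z (hW hz)) ?_
  rcases b with _ | z
  · rw [mob_none, sub_zero] at hV1
    change 1 < V.valuation t
    by_contra h1
    push Not at h1
    have h2 : t ∈ V := (ValuationSubring.valuation_le_one_iff _ _).1 h1
    have h3 : t - a0 ∈ V := sub_mem h2 ha0V
    rcases (val_lt_one V _).1 hV1 with h4 | h4
    · exact inv_ne_zero hta' h4
    · rw [inv_inv] at h4
      exact h4 h3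
  · change V.valuation (t - z) < 1
    have hz : z ∈ V := hV _ hbW
    have hzc : (z - a0)⁻¹ ∈ V := by
      rw [← mob_some]
      exact hV _ hcW
    have hz0 : z - a0 ≠ 0 := fun h0 => hb (by rw [sub_eq_zero.1 h0])
    have hvc : V.valuation (z - a0) = 1 := by
      refine le_antisymm ((ValuationSubring.valuation_le_one_iff _ _).2 (sub_mem hz ha0V)) ?_
      have h5 := (ValuationSubring.valuation_le_one_iff _ _).2 hzc
      rw [map_inv₀] at h5
      exact (inv_le_one₀ (zero_lt_iff.2 ((Valuation.ne_zero_iff _).2 hz0))).1 h5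
    rw [mob_some] at hV1
    have hvu : V.valuation (t - a0)⁻¹ = 1 := by
      have h6 : V.valuation (z - a0)⁻¹ = 1 := by rw [map_inv₀, hvc, inv_one]
      rw [← h6]
      refine Valuation.map_eq_of_sub_lt _ ?_
      rw [h6]
      exact hV1
    have hvt : V.valuation (t - a0) = 1 := by
      rw [map_inv₀] at hvu
      exact inv_eq_one.1 hvu
    have h7 : t - z = ((z - a0)⁻¹ - (t - a0)⁻¹) * ((t - a0) * (z - a0)) := by
      field_simp
      ring
    rw [h7, map_mul, map_mul, hvt, hvc, mul_one, mul_one, Valuation.map_sub_swap]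
    exact hV1

/-- A natural number which is none of finitely many points. -/
theorem exists_nat {ι : Type} [Finite ι] (b : ι → Option ℂ) :
    ∃ k : ℕ, ∀ i, b i ≠ some (k : ℂ) := by
  by_contra hcon
  push Not at hcon
  have h1 : (Set.range fun k : ℕ => (some (k : ℂ) : Option ℂ)).Finite :=
    (Set.finite_range b).subset (by
      rintro _ ⟨k, rfl⟩
      obtain ⟨i, hi⟩ := hcon k
      exact ⟨i, hi⟩)
  exact Set.infinite_range_of_injective (f := fun k : ℕ => (some (k : ℂ) : Option ℂ))
    (fun x y (h : some (x : ℂ) = some (y : ℂ)) => by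
      have := Option.some_injective _ h
      exact_mod_cast this) h1

/-- The order of a polynomial at a point of the projective line. -/
noncomputable def ord (f : Polynomial ℂ) : Option ℂ → ℤ
  | some a => (f.rootMultiplicity a : ℤ)
  | none => -(f.natDegree : ℤ)

/-- The local parameter. -/
noncomputable def unif (t : ℂ) : Option ℂ → ℂ
  | some a => t - a
  | none => t⁻¹

theorem unif_lt {V : ValuationSubring ℂ} {t : ℂ} {a : Option ℂ} (h : NearAt V t a) :
    V.valuation (unif t a) < 1 := by
  rcases a with _ | a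
  · have h1 : 1 < V.valuation t := h
    change V.valuation t⁻¹ < 1
    rw [map_inv₀]
    exact inv_lt_one_of_one_lt₀ h1
  · exact h

/-- The value of a polynomial near to infinity. -/
theorem near_inf (V : ValuationSubring ℂ) (f : Polynomial ℂ) (hf : f ≠ 0)
    (hcoef : ∀ i, f.coeff i ∈ V) (hlead : f.leadingCoeff⁻¹ ∈ V) {t : ℂ}
    (ht : 1 < V.valuation t) : V.valuation (f.eval t) = V.valuation t ^ f.natDegree := by
  have h0 : f.leadingCoeff ≠ 0 := leadingCoeff_ne_zero.2 hf
  have hl : V.valuation (f.coeff f.natDegree) = 1 := by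
    refine le_antisymm ((ValuationSubring.valuation_le_one_iff _ _).2 (hcoef _)) ?_
    have h5 := (ValuationSubring.valuation_le_one_iff _ _).2 hlead
    rw [map_inv₀] at h5
    exact (inv_le_one₀ (zero_lt_iff.2 ((Valuation.ne_zero_iff _).2 h0))).1 h5
  have htop : V.valuation (f.coeff f.natDegree * t ^ f.natDegree) =
      V.valuation t ^ f.natDegree := by
    rw [map_mul, hl, one_mul, map_pow]
  rw [eval_eq_sum_range, Finset.sum_range_succ]
  rw [Valuation.map_add_eq_of_lt_right, htop]
  rw [htop]
  refine Valuation.map_sum_lt _ (pow_ne_zero _ (zero_lt_one.trans ht).ne') fun i hi => ?_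
  rw [Finset.mem_range] at hi
  rw [map_mul, map_pow]
  calc V.valuation (f.coeff i) * V.valuation t ^ i ≤ 1 * V.valuation t ^ i :=
        mul_le_mul' ((ValuationSubring.valuation_le_one_iff _ _).2 (hcoef i)) le_rfl
    _ = V.valuation t ^ i := one_mul _
    _ < V.valuation t ^ f.natDegree := pow_lt_pow_right₀ ht hi

/-- The values of finitely many polynomials near to finitely many points of the projective line. -/
theorem exists_near {M : ℕ} (S : Finset (Polynomial ℂ)) (hS : ∀ f ∈ S, f ≠ 0)
    (α : Fin M → Option ℂ) :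
    ∃ W : Finset ℂ, ∀ V : ValuationSubring ℂ, (∀ z ∈ W, z ∈ V) → ∀ (l : Fin M) (t : ℂ),
      NearAt V t (α l) → ∀ f ∈ S,
        V.valuation (f.eval t) = V.valuation (unif t (α l)) ^ ord f (α l) := by
  classical
  let g : Fin S.card → Polynomial ℂ := fun j => (S.equivFin.symm j : Polynomial ℂ)
  have hg : ∀ f ∈ S, ∃ j, g j = f := by
    intro f hf
    refine ⟨S.equivFin ⟨f, hf⟩, ?_⟩
    simp [g]
  obtain ⟨W, hW, -, hnear⟩ := Pool.Agent.Y199.ZF.near (k := ℂ) (m := S.card) (n := 0)
    (fun _ => {0}) (fun j _ => g j) (fun j _ _ => hS _ (S.equivFin.symm j).2)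
    (fun l => (α l).getD 0) ∅ Set.finite_empty
  let W1 : Finset ℂ := S.biUnion fun f => f.support.image fun i => f.coeff i
  let W2 : Finset ℂ := S.image fun f => f.leadingCoeff⁻¹
  refine ⟨hW.toFinset ∪ (W1 ∪ W2), fun V hV l t ht f hf => ?_⟩
  have hVW : ∀ z ∈ W, algebraMap ℂ ℂ z ∈ V := fun z hz => hV z (by
    simp only [Finset.mem_union, Set.Finite.mem_toFinset]
    exact Or.inl hz)
  have hV1 : ∀ i, f.coeff i ∈ V := by
    intro i
    by_cases h : f.coeff i = 0
    · rw [h]
      exact zero_mem V
    · refine hV _ ?_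
      simp only [W1, Finset.mem_union, Finset.mem_biUnion, Finset.mem_image]
      exact Or.inr (Or.inl ⟨f, hf, i, mem_support_iff.2 h, rfl⟩)
  have hV2 : f.leadingCoeff⁻¹ ∈ V := by
    refine hV _ ?_
    simp only [W2, Finset.mem_union, Finset.mem_image]
    exact Or.inr (Or.inr ⟨f, hf, rfl⟩)
  obtain ⟨j, rfl⟩ := hg f hf
  rcases hl : α l with _ | a
  · rw [hl] at ht
    have h1 := near_inf V (g j) (hS _ hf) hV1 hV2 ht
    rw [h1]
    change _ = V.valuation t⁻¹ ^ (-((g j).natDegree : ℤ))
    rw [map_inv₀, inv_zpow, zpow_neg, inv_inv, zpow_natCast]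
  · have h2 : (α l).getD 0 = a := by rw [hl, Option.getD_some]
    have h3 := hnear V hVW l t (by
      rw [hl] at ht
      rw [h2]
      exact ht) j 0 (Finset.mem_singleton_self _)
    rw [h2] at h3
    change _ = V.valuation (t - a) ^ (((g j).rootMultiplicity a : ℕ) : ℤ)
    rw [zpow_natCast]
    exact h3

/-- `t` is integral over the ring generated by `G` with respect to a point of the projective line. -/
def IntegralAt (G : Set ℂ) (t : ℂ) : Option ℂ → Prop
  | some z => t ≠ z ∧ IsIntegral (Algebra.adjoin ℤ G) (t - z)⁻¹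
  | none => IsIntegral (Algebra.adjoin ℤ G) t

theorem mem_of_integral {G : Set ℂ} {V : ValuationSubring ℂ} (hG : ∀ z ∈ G, z ∈ V) {x : ℂ}
    (hx : IsIntegral (Algebra.adjoin ℤ G) x) : x ∈ V := by
  have h4 : algebraMap ℂ ℂ '' G = G := Set.image_id _
  refine (ValuationSubring.valuation_le_one_iff _ _).1
    (Pool.Agent.Y152.BD.v_le_of_int (k := ℂ) G V (fun x hx => hG x hx) ?_)
  rw [h4]
  exact hx

theorem IntegralAt.far {G : Set ℂ} {t : ℂ} {a : Option ℂ} (h : IntegralAt G t a) :
    Far G t a := by
  intro V hV hnear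
  rcases a with _ | a
  · have h1 : 1 < V.valuation t := hnear
    have h2 : IsIntegral (Algebra.adjoin ℤ G) t := h
    have h3 := (ValuationSubring.valuation_le_one_iff _ _).2 (mem_of_integral hV h2)
    exact absurd h1 (not_lt.2 h3)
  · obtain ⟨h1, h2⟩ := h
    have h3 := mem_of_integral hV h2
    have h4 : V.valuation (t - a) < 1 := hnear
    rcases (val_lt_one V _).1 h4 with h5 | h5
    · exact h1 (sub_eq_zero.1 h5)
    · exact h5 h3

end Pool.Agent.V7H20.ZF
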