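import Pool.Agent.V7H20.ZF.Deg

/-!
Algebraic numbers of degree `e` over a number field which are near to no conjugates of `2 e + 1` given
algebraic numbers (helper file).
-/

set_option autoImplicit false

namespace Pool.Agent.V7H20.ZF

open Polynomial Pool.Agent.Y199.DM

/-- the linear relation between the values of a polynomial of degree at most `e` at `e + 2` points -/
theorem rel_values {K : Type} [Field K] {e : ℕ} (x : Fin (e + 2) → K) (hx : Function.Injective x)
    (P : K[X]) (hP : P.natDegree ≤ e) :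
    ∑ i, Lagrange.nodalWeight Finset.univ x i * P.eval (x i) = 0 := by
  classical
  have hinj : Set.InjOn x (Finset.univ : Finset (Fin (e + 2))) := hx.injOn
  have hcard : (Finset.univ : Finset (Fin (e + 2))).card = e + 2 := by simp
  have hdeg : P.degree < ((Finset.univ : Finset (Fin (e + 2))).card : WithBot ℕ) := by
    rw [hcard]
    refine lt_of_le_of_lt Polynomial.degree_le_natDegree ?_
    exact_mod_cast Nat.lt_of_le_of_lt hP (by omega)
  have h1 := Lagrange.coeff_eq_sum hinj hdeg
  rw [hcard] at h1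
  have h2 : P.coeff (e + 2 - 1) = 0 := Polynomial.coeff_eq_zero_of_natDegree_lt (by omega)
  rw [h2] at h1
  rw [h1]
  refine Finset.sum_congr rfl fun i _ => ?_
  rw [Lagrange.nodalWeight, div_eq_mul_inv, mul_comm, Finset.prod_inv_distrib]

theorem finite_core (E : IntermediateField ℚ ℂ) [FiniteDimensional ℚ E] (s : Finset ℂ) (e : ℕ)
    (b : Fin (2 * e + 1) → ℂ) (hb : Function.Injective b) (halg : ∀ i, IsAlgebraic ℚ (b i)) :
    {t : ℂ | IsAlgebraic E t ∧ (minpoly E t).natDegree = e ∧
      ∀ i, ∀ b' : ℂ, aeval b' (minpoly E (b i)) = 0 → ¬ Near s b' t}.Finite := by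
  classical
  let B : Finset ℂ := Finset.univ.image b
  have hbB : ∀ i, b i ∈ B := fun i => Finset.mem_image_of_mem _ (Finset.mem_univ i)
  have hB : ∀ c ∈ B, IsAlgebraic ℚ c := by
    intro c hc
    obtain ⟨i, -, rfl⟩ := Finset.mem_image.1 hc
    exact halg i
  obtain ⟨D, hD⟩ := int_ratio E s B hB
  -- the field
  let A0 : IntermediateField ℚ ℂ := IntermediateField.adjoin ℚ (Set.range b)
  haveI hA0 : FiniteDimensional ℚ A0 := IntermediateField.finiteDimensional_adjoin (by
    rintro _ ⟨i, rfl⟩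
    exact (halg i).isIntegral)
  let A : IntermediateField ℚ ℂ := E ⊔ A0
  haveI hA : FiniteDimensional ℚ A := IntermediateField.finiteDimensional_sup E A0
  let ι : E →+* A := (IntermediateField.inclusion (le_sup_left : E ≤ A)).toRingHom
  have hι : (algebraMap A ℂ).comp ι = algebraMap E ℂ := rfl
  have hbA : ∀ i, b i ∈ A := fun i =>
    (le_sup_right : A0 ≤ A) (IntermediateField.subset_adjoin ℚ _ ⟨i, rfl⟩)
  let x : Fin (2 * e + 1) → A := fun i => ⟨b i, hbA i⟩
  have hx : Function.Injective x := fun i j hij => hb (congrArg (fun z : A => (z : ℂ)) hij)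
  -- the bounds
  have hS : ∀ h : Fin (e + 2) ↪ Fin (2 * e + 1), ∃ R : Set A, R.Finite ∧
      ∀ u : Fin (e + 1 + 1) → A, (∀ i, u i ≠ 0) →
      (∀ i j, ∃ k : ℕ, IsIntegral ℤ (((D.factorial : ℕ) : ℂ) ^ k * ((u i / u j : A) : ℂ))) →
      ∑ i, Lagrange.nodalWeight Finset.univ (fun i : Fin (e + 2) => x (h i)) i * u i = 0 →
      ∃ j, j ≠ 0 ∧ u 0 / u j ∈ R := by
    intro h
    refine unit_ratio A D
      (fun i => Lagrange.nodalWeight Finset.univ (fun i : Fin (e + 2) => x (h i)) i) (fun i => ?_)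
    exact Lagrange.nodalWeight_ne_zero (hx.comp h.injective).injOn (Finset.mem_univ i)
  choose R hR hRu using hS
  let F1 : Set A := insert 1 (⋃ h, R h)
  have hF1 : F1.Finite := (Set.finite_iUnion fun h => hR h).insert 1
  have : Finite F1 := hF1
  -- the polynomials
  let 𝒢 : Set A[X] := Set.range (fun sq : Finset (Fin (2 * e + 1)) × (Fin (2 * e + 1) → F1) =>
    Lagrange.interpolate sq.1 x (fun i => ((sq.2 i : A))⁻¹))
  have h𝒢 : 𝒢.Finite := Set.finite_range _
  refine ((h𝒢.biUnion fun G1 _ => (Polynomial.rootSet_finite G1 ℂ)).union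
    (Set.finite_iUnion fun i => (Polynomial.rootSet_finite (minpoly E (b i)) ℂ))).subset ?_
  rintro t ⟨ht, hte, hfar⟩
  have hti : IsIntegral E t := ht.isIntegral
  by_cases hzero : ∃ i, aeval (b i) (minpoly E t) = 0
  · right
    obtain ⟨i, hi⟩ := hzero
    have h1 : minpoly E t = minpoly E (b i) :=
      minpoly.eq_of_irreducible_of_monic (minpoly.irreducible hti) hi (minpoly.monic hti)
    refine Set.mem_iUnion.2 ⟨i, ?_⟩
    rw [Polynomial.mem_rootSet, ← h1]
    exact ⟨minpoly.ne_zero hti, minpoly.aeval E t⟩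
  left
  push Not at hzero
  have hDt := hD t ht (by
    intro c hc
    obtain ⟨i, -, rfl⟩ := Finset.mem_image.1 hc
    exact hzero i) (by
    intro c hc
    obtain ⟨i, -, rfl⟩ := Finset.mem_image.1 hc
    exact hfar i)
  let P : A[X] := (minpoly E t).map ι
  have hPm : P.Monic := (minpoly.monic hti).map ι
  have hPdeg : P.natDegree = e := by
    rw [(minpoly.monic hti).natDegree_map ι, hte]
  let N : Fin (2 * e + 1) → A := fun i => P.eval (x i)
  have hNv : ∀ i, ((N i : A) : ℂ) = aeval (b i) (minpoly E t) := by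
    intro i
    have h1 : (algebraMap A ℂ) (P.eval (x i)) =
        eval₂ ((algebraMap A ℂ).comp ι) ((algebraMap A ℂ) (x i)) (minpoly E t) := by
      rw [show P = (minpoly E t).map ι from rfl, eval_map, hom_eval₂]
    rw [hι] at h1
    exact h1
  have hN0 : ∀ i, N i ≠ 0 := by
    intro i h
    apply hzero i
    rw [← hNv i, h]
    rfl
  have hint : ∀ i j, ∃ k : ℕ, IsIntegral ℤ (((D.factorial : ℕ) : ℂ) ^ k *
      ((N i / N j : A) : ℂ)) := by
    intro i j
    obtain ⟨k, hk⟩ := hDt (b i) (hbB i) (b j) (hbB j)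
    refine ⟨k, ?_⟩
    have h1 : ((N i / N j : A) : ℂ) =
        aeval (b i) (minpoly E t) / aeval (b j) (minpoly E t) := by
      push_cast
      rw [hNv, hNv]
    rw [h1]
    exact hk
  -- the neighbours
  let Nb : Finset (Fin (2 * e + 1)) := (Finset.univ.erase 0).filter fun i => N 0 / N i ∈ F1
  have hNb : e ≤ Nb.card := by
    by_contra hlt
    push Not at hlt
    let Nc : Finset (Fin (2 * e + 1)) := (Finset.univ.erase 0).filter fun i => ¬ N 0 / N i ∈ F1
    have hcard : Nb.card + Nc.card = 2 * e := by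
      have h1 := Finset.card_filter_add_card_filter_not
        (s := (Finset.univ.erase (0 : Fin (2 * e + 1)))) (fun i => N 0 / N i ∈ F1)
      rw [Finset.card_erase_of_mem (Finset.mem_univ _), Finset.card_univ, Fintype.card_fin] at h1
      simpa using h1
    obtain ⟨S, hS, hSc⟩ := Finset.exists_subset_card_eq (s := Nc) (n := e + 1) (by omega)
    have h0S : (0 : Fin (2 * e + 1)) ∉ S := by
      intro h
      have h1 := (Finset.mem_filter.1 (hS h)).1
      exact absurd rfl (Finset.mem_erase.1 h1).1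
    let h : Fin (e + 2) ↪ Fin (2 * e + 1) :=
      ⟨Fin.cons 0 (fun i => S.orderEmbOfFin hSc i), by
        refine Fin.cons_injective_iff.2 ⟨?_, (S.orderEmbOfFin hSc).injective⟩
        rintro ⟨i, hi⟩
        apply h0S
        rw [← hi]
        exact Finset.orderEmbOfFin_mem S hSc i⟩
    have hh0 : h 0 = 0 := rfl
    have hhs : ∀ i : Fin (e + 1), h i.succ = S.orderEmbOfFin hSc i := fun i => rfl
    obtain ⟨j, hj0, hj1⟩ := hRu h (fun i => N (h i)) (fun i => hN0 _)
      (fun i j => hint _ _) (by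
      exact rel_values (fun i => x (h i)) (hx.comp h.injective) P hPdeg.le)
    obtain ⟨j', rfl⟩ := Fin.exists_succ_eq.2 hj0
    have h2 : h j'.succ ∈ Nc := by
      rw [hhs]
      exact hS (Finset.orderEmbOfFin_mem S hSc j')
    apply (Finset.mem_filter.1 h2).2
    rw [← hh0]
    exact Or.inr (Set.mem_iUnion.2 ⟨h, hj1⟩)
  obtain ⟨J, hJ, hJc⟩ := Finset.exists_subset_card_eq hNb
  have h0J : (0 : Fin (2 * e + 1)) ∉ J := by
    intro h
    have h1 := (Finset.mem_filter.1 (hJ h)).1
    exact absurd rfl (Finset.mem_erase.1 h1).1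
  let S : Finset (Fin (2 * e + 1)) := insert 0 J
  have hsc : S.card = e + 1 := by
    rw [Finset.card_insert_of_notMem h0J, hJc]
  have hsF : ∀ i ∈ S, N 0 / N i ∈ F1 := by
    intro i hi
    rcases Finset.mem_insert.1 hi with rfl | hi
    · left
      exact div_self (hN0 _)
    · exact (Finset.mem_filter.1 (hJ hi)).2
  let q : Fin (2 * e + 1) → F1 := fun i =>
    if h : i ∈ S then ⟨N 0 / N i, hsF i h⟩ else ⟨1, Or.inl rfl⟩
  let G1 : A[X] := C (N 0)⁻¹ * P
  have hG1 : G1 = Lagrange.interpolate S x (fun i => ((q i : A))⁻¹) := by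
    refine Lagrange.eq_interpolate_of_eval_eq _ hx.injOn ?_ ?_
    · refine lt_of_le_of_lt Polynomial.degree_le_natDegree ?_
      rw [hsc]
      have h1 : G1.natDegree ≤ e := (Polynomial.natDegree_C_mul_le _ _).trans hPdeg.le
      exact_mod_cast Nat.lt_succ_of_le h1
    · intro i hi
      have h1 : (q i : A) = N 0 / N i := by
        simp only [q, dif_pos hi]
      rw [h1, Polynomial.eval_mul, Polynomial.eval_C, inv_div]
      change (N 0)⁻¹ * N i = N i / N 0
      rw [div_eq_mul_inv, mul_comm]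
  have hmem : G1 ∈ 𝒢 := ⟨(S, q), hG1.symm⟩
  refine Set.mem_biUnion hmem ?_
  rw [Polynomial.mem_rootSet]
  refine ⟨mul_ne_zero (C_ne_zero.2 (inv_ne_zero (hN0 0))) hPm.ne_zero, ?_⟩
  have h1 : aeval t P = 0 := by
    have h2 : aeval t P = eval₂ ((algebraMap A ℂ).comp ι) t (minpoly E t) := by
      rw [show P = (minpoly E t).map ι from rfl, aeval_def, eval₂_map]
    rw [h2, hι]
    exact minpoly.aeval E t
  rw [map_mul, h1, mul_zero]

end Pool.Agent.V7H20.ZF
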