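import Pool.Agent.V7H20.ZF.Unit

/-!
Algebraic numbers of bounded degree over a number field which are near to no conjugates of given
algebraic numbers (helper file).
-/

set_option autoImplicit false

namespace Pool.Agent.V7H20.ZF

open Polynomial NumberField IsDedekindDomain Pool.Agent.Y199.DM Pool.Agent.Y199.SG
open Pool.Agent.Helper259.AbsHt

/-- Conjugation of a pair of algebraic numbers. -/
theorem exists_conj (E : IntermediateField ℚ ℂ) (t r b : ℂ) (ht : IsIntegral E t)
    (hb : IsIntegral E b) (hr : aeval r (minpoly E t) = 0) :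
    ∃ b' : ℂ, aeval b' (minpoly E b) = 0 ∧
      ∀ G : ℤ[X], aeval (t - b') G = 0 → aeval (r - b) G = 0 := by
  classical
  have hri : IsIntegral E r := ⟨minpoly E t, minpoly.monic ht, hr⟩
  have hmin : minpoly E t = minpoly E r :=
    minpoly.eq_of_irreducible_of_monic (minpoly.irreducible ht) hr (minpoly.monic ht)
  let AE : IntermediateField E ℂ := algebraicClosure E ℂ
  haveI hcl : IsAlgClosure E AE := inferInstance
  haveI hN : Normal E AE := IsAlgClosure.normal E AE
  let t' : AE := ⟨t, mem_algebraicClosure_iff'.2 ht⟩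
  let r' : AE := ⟨r, mem_algebraicClosure_iff'.2 hri⟩
  let c' : AE := ⟨b, mem_algebraicClosure_iff'.2 hb⟩
  have h1 : minpoly E t' = minpoly E t :=
    (minpoly.algebraMap_eq (A := E) (B := AE) (B' := ℂ) (algebraMap AE ℂ).injective t').symm
  have h2 : minpoly E r' = minpoly E r :=
    (minpoly.algebraMap_eq (A := E) (B := AE) (B' := ℂ) (algebraMap AE ℂ).injective r').symm
  have h3 : minpoly E c' = minpoly E b :=
    (minpoly.algebraMap_eq (A := E) (B := AE) (B' := ℂ) (algebraMap AE ℂ).injective c').symm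
  have hconj : IsConjRoot E r' t' := by
    change minpoly E r' = minpoly E t'
    rw [h1, h2, hmin]
  obtain ⟨σ, hσ⟩ := isConjRoot_iff_exists_algEquiv.1 hconj
  refine ⟨((σ.symm c' : AE) : ℂ), ?_, fun G hG => ?_⟩
  · have h4 : aeval (σ.symm c') (minpoly E c') = 0 := by
      have h5 : aeval (σ.symm c') (minpoly E c') = σ.symm (aeval c' (minpoly E c')) :=
        (Polynomial.aeval_algHom_apply σ.symm.toAlgHom c' (minpoly E c'))
      rw [h5, minpoly.aeval, map_zero]
    rw [h3] at h4
    have h6 : aeval ((algebraMap AE ℂ) (σ.symm c')) (minpoly E b) =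
        (algebraMap AE ℂ) (aeval (σ.symm c') (minpoly E b)) :=
      Polynomial.aeval_algebraMap_apply ℂ (σ.symm c') (minpoly E b)
    rw [h4, map_zero] at h6
    exact h6
  · have h4 : aeval ((algebraMap AE ℂ) (t' - σ.symm c')) G = 0 := hG
    rw [aeval_int_hom] at h4
    have h5 : aeval (t' - σ.symm c') G = 0 := (map_eq_zero _).1 h4
    have h6 : aeval ((σ : AE →+* AE) (t' - σ.symm c')) G =
        (σ : AE →+* AE) (aeval (t' - σ.symm c') G) := aeval_int_hom _ _ _
    rw [h5, map_zero] at h6
    have h7 : (σ : AE →+* AE) (t' - σ.symm c') = r' - c' := by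
      change σ (t' - σ.symm c') = r' - c'
      rw [map_sub, hσ, AlgEquiv.apply_symm_apply]
    rw [h7] at h6
    have h8 : aeval ((algebraMap AE ℂ) (r' - c')) G = (algebraMap AE ℂ) (aeval (r' - c') G) :=
      aeval_int_hom _ _ _
    rw [h6, map_zero] at h8
    exact h8

/-- The roots of a monic polynomial over a subfield of `ℂ`. -/
theorem exists_roots {E : IntermediateField ℚ ℂ} (P : Polynomial E) (hP : P.Monic) :
    ∃ r : Fin P.natDegree → ℂ, (∀ i, aeval (r i) P = 0) ∧
      ∀ z : ℂ, aeval z P = ∏ i, (z - r i) := by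
  classical
  let Q : Polynomial ℂ := P.map (algebraMap E ℂ)
  have hQ : Q.Monic := hP.map _
  have hdeg : Q.natDegree = P.natDegree := hP.natDegree_map _
  have hsplit : Q.Splits := IsAlgClosed.splits Q
  have hcard : Multiset.card Q.roots = P.natDegree := by
    rw [← hdeg]
    exact (splits_iff_card_roots.1 hsplit)
  have hlen : Q.roots.toList.length = P.natDegree := by
    rw [Multiset.length_toList, hcard]
  have hQprod : (Q.roots.map fun a => X - C a).prod = Q := by
    have := hsplit.eq_prod_roots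
    rw [hQ.leadingCoeff, C_1, one_mul] at this
    exact this.symm
  refine ⟨fun i => Q.roots.toList.get (Fin.cast hlen.symm i), fun i => ?_, fun z => ?_⟩
  · have h1 : Q.roots.toList.get (Fin.cast hlen.symm i) ∈ Q.roots := by
      rw [← Multiset.mem_toList]
      exact List.get_mem _ _
    have h2 := (mem_roots'.1 h1).2
    rw [IsRoot, eval_map_algebraMap] at h2
    exact h2
  · have h1 : aeval z P = Q.eval z := by
      rw [eval_map_algebraMap]
    rw [h1]
    conv_lhs => rw [← hQprod]
    rw [eval_multiset_prod, Multiset.map_map]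
    have h2 : Q.roots = (Q.roots.toList : Multiset ℂ) := (Multiset.coe_toList _).symm
    conv_lhs => rw [h2]
    rw [Multiset.map_coe, Multiset.prod_coe]
    have h3 : (∏ i : Fin P.natDegree, (z - Q.roots.toList.get (Fin.cast hlen.symm i))) =
        ∏ i : Fin Q.roots.toList.length, (z - Q.roots.toList.get i) :=
      Fintype.prod_equiv (finCongr hlen.symm) _ _ (fun i => rfl)
    rw [h3]
    have h4 : (Q.roots.toList.map ((fun p => eval z p) ∘ fun a => X - C a)) =
        Q.roots.toList.map fun a => z - a := by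
      refine List.map_congr_left fun a _ => ?_
      simp
    rw [h4, ← List.prod_ofFn]
    congr 1
    have h5 : List.map (fun a => z - a) (List.ofFn Q.roots.toList.get) =
        List.ofFn ((fun a => z - a) ∘ Q.roots.toList.get) := List.map_ofFn
    rw [List.ofFn_get] at h5
    exact h5

/-- The ratios of the values of the minimal polynomial at given algebraic numbers are integral up to
a factor `D!`, if `t` is near to none of the conjugates of these numbers. -/
theorem int_ratio (E : IntermediateField ℚ ℂ) [FiniteDimensional ℚ E] (s B : Finset ℂ)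
    (hB : ∀ b ∈ B, IsAlgebraic ℚ b) : ∃ D : ℕ, ∀ t : ℂ, IsAlgebraic E t →
      (∀ b ∈ B, aeval b (minpoly E t) ≠ 0) →
      (∀ b ∈ B, ∀ b' : ℂ, aeval b' (minpoly E b) = 0 → ¬ Near s b' t) →
      ∀ b ∈ B, ∀ c ∈ B, ∃ k : ℕ, IsIntegral ℤ (((D.factorial : ℕ) : ℂ) ^ k *
        (aeval b (minpoly E t) / aeval c (minpoly E t))) := by
  classical
  obtain ⟨D1, hD1⟩ := near_place s
  have hmul : ∀ b : ℂ, ∃ y : ℤ, b ∈ B → y ≠ 0 ∧ IsIntegral ℤ ((y : ℂ) * b) := by
    intro b
    by_cases hb : b ∈ B
    · have h1 : IsAlgebraic ℤ b := (IsFractionRing.isAlgebraic_iff ℤ ℚ ℂ).2 (hB b hb)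
      obtain ⟨y, hy, h2⟩ := h1.exists_integral_multiple
      exact ⟨y, fun _ => ⟨hy, by simpa using h2⟩⟩
    · exact ⟨1, fun h => absurd h hb⟩
  choose y hy using hmul
  refine ⟨D1 + ∑ b ∈ B, (y b).natAbs, fun t ht hne hfar b hb c hc => ?_⟩
  set D := D1 + ∑ b ∈ B, (y b).natAbs with hD
  have hti : IsIntegral E t := ht.isIntegral
  haveI hEalg : Algebra.IsAlgebraic ℚ E := Algebra.IsAlgebraic.of_finite ℚ E
  obtain ⟨r, hr0, hr⟩ := exists_roots (minpoly E t) (minpoly.monic hti)
  have hralg : ∀ i, IsAlgebraic ℚ (r i) := by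
    intro i
    have h1 : IsAlgebraic E (r i) := ⟨minpoly E t, minpoly.ne_zero hti, hr0 i⟩
    exact h1.restrictScalars ℚ
  let A : IntermediateField ℚ ℂ := IntermediateField.adjoin ℚ ((B : Set ℂ) ∪ Set.range r)
  haveI hA : FiniteDimensional ℚ A := by
    haveI : Finite ((B : Set ℂ) ∪ Set.range r : Set ℂ) :=
      (B.finite_toSet.union (Set.finite_range r))
    exact IntermediateField.finiteDimensional_adjoin (by
      rintro x (hx | ⟨i, rfl⟩)
      · exact (hB x hx).isIntegral
      · exact (hralg i).isIntegral)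
  have hBA : ∀ b ∈ B, b ∈ A := fun b hb =>
    IntermediateField.subset_adjoin ℚ _ (Or.inl hb)
  have hrA : ∀ i, r i ∈ A := fun i => IntermediateField.subset_adjoin ℚ _ (Or.inr ⟨i, rfl⟩)
  obtain ⟨L, hL, ⟨ψ⟩⟩ := exists_emb A
  let r' : Fin (minpoly E t).natDegree → A := fun i => ⟨r i, hrA i⟩
  -- the values at a place
  have hval : ∀ v : HeightOneSpectrum (𝓞 L),
      (∀ p : ℕ, p.Prime → p ≤ D → ¬ v.valuation L (p : L) < 1) → ∀ (b : ℂ) (hb : b ∈ B) (i),
      v.valuation L (ψ (⟨b, hBA b hb⟩ - r' i)) = max (v.valuation L (ψ (r' i))) 1 := by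
    intro v hv b hb i
    have hv1 : ∀ p : ℕ, p.Prime → p ≤ D1 → ¬ v.valuation L (p : L) < 1 :=
      fun p hp hle => hv p hp (by omega)
    have hbv : v.valuation L (ψ ⟨b, hBA b hb⟩) ≤ 1 := by
      obtain ⟨hy0, hyi⟩ := hy b hb
      have hle : (y b).natAbs ≤ D := by
        have h0 : (y b).natAbs ≤ ∑ b ∈ B, (y b).natAbs :=
          Finset.single_le_sum (f := fun b => (y b).natAbs) (fun _ _ => Nat.zero_le _) hb
        omega
      have h1 : v.valuation L (((y b).natAbs : ℕ) : L) = 1 :=
        val_eq_one v D hv _ (Int.natAbs_ne_zero.2 hy0) hle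
      have h2 : IsIntegral ℤ ((((y b).natAbs : ℕ) : ℂ) ^ 1 * ((⟨b, hBA b hb⟩ : A) : ℂ)) := by
        rw [pow_one]
        rcases Int.natAbs_eq (y b) with h | h
        · have e : (((y b).natAbs : ℕ) : ℂ) = (y b : ℂ) := by
            have h3 := congrArg (fun z : ℤ => (z : ℂ)) h
            simp only [Int.cast_natCast] at h3
            exact h3.symm
          rw [e]
          exact hyi
        · have e : (((y b).natAbs : ℕ) : ℂ) = -(y b : ℂ) := by
            have h3 := congrArg (fun z : ℤ => (z : ℂ)) h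
            simp only [Int.cast_neg, Int.cast_natCast] at h3
            rw [h3, neg_neg]
          rw [e, neg_mul]
          exact hyi.neg
      exact val_le_of_int v h1 ((isIntegral_map ψ _ 1 _).1 h2)
    have hnot : ¬ v.valuation L (ψ (r' i - ⟨b, hBA b hb⟩)) < 1 := by
      intro hlt
      obtain ⟨b', hb', hG⟩ := exists_conj E t (r i) b hti
        ((hB b hb).extendScalars (algebraMap ℚ E).injective).isIntegral (hr0 i)
      refine hfar b hb b' hb' ?_
      have halg : IsAlgebraic ℚ (t - b') := by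
        have h1 : IsAlgebraic ℚ t := ht.restrictScalars ℚ
        have h2 : IsAlgebraic E b' := ⟨minpoly E b, minpoly.ne_zero
          ((hB b hb).extendScalars (algebraMap ℚ E).injective).isIntegral, hb'⟩
        exact h1.sub (h2.restrictScalars ℚ)
      exact hD1 L v hv1 (ψ (r' i - ⟨b, hBA b hb⟩)) (t - b') halg (fun G hG0 => by
        have h1 := hG G hG0
        have h2 : aeval ((algebraMap A ℂ) (r' i - ⟨b, hBA b hb⟩)) G = 0 := h1
        rw [aeval_int_hom] at h2
        have h3 : aeval (r' i - ⟨b, hBA b hb⟩ : A) G = 0 := (map_eq_zero _).1 h2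
        rw [aeval_int_hom, h3, map_zero]) hlt
    have hnot' : 1 ≤ v.valuation L (ψ (⟨b, hBA b hb⟩ - r' i)) := by
      rw [map_sub, Valuation.map_sub_swap, ← map_sub]
      exact not_lt.1 hnot
    rcases le_or_gt (v.valuation L (ψ (r' i))) 1 with h3 | h3
    · rw [max_eq_right h3]
      refine le_antisymm ?_ hnot'
      rw [map_sub]
      exact (Valuation.map_sub _ _ _).trans (max_le hbv h3)
    · rw [max_eq_left h3.le, map_sub]
      exact Valuation.map_sub_eq_of_lt_right _ (lt_of_le_of_lt hbv h3)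
  let x : ∀ b : ℂ, b ∈ B → A := fun b hb => ∏ i, (⟨b, hBA b hb⟩ - r' i)
  have hx : ∀ b (hb : b ∈ B), ((x b hb : A) : ℂ) = aeval b (minpoly E t) := by
    intro b hb
    rw [hr b]
    simp only [x]
    push_cast
    rfl
  have hx0 : ∀ b (hb : b ∈ B), x b hb ≠ 0 := by
    intro b hb h
    apply hne b hb
    rw [← hx b hb, h]
    rfl
  obtain ⟨k, hk⟩ := int_of_val D (ψ (x b hb / x c hc)) (fun v hv => by
    have h1 : v.valuation L (ψ (x b hb)) = v.valuation L (ψ (x c hc)) := by
      simp only [x, map_prod]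
      refine Finset.prod_congr rfl fun i _ => ?_
      rw [hval v hv b hb i, hval v hv c hc i]
    have h2 : v.valuation L (ψ (x c hc)) ≠ 0 := by
      rw [Ne, map_eq_zero, map_eq_zero]
      exact hx0 c hc
    rw [map_div₀, map_div₀, h1, div_self h2])
  refine ⟨k, ?_⟩
  have h3 : aeval b (minpoly E t) / aeval c (minpoly E t) = ((x b hb / x c hc : A) : ℂ) := by
    push_cast
    rw [hx b hb, hx c hc]
  rw [h3]
  exact (isIntegral_map ψ _ k _).2 hk

end Pool.Agent.V7H20.ZF
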