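import Pool.Agent.V7H20.ZF.Core
import Pool.Agent.V7H20.ZF.Base
import Pool.Agent.Y199.ZF.Rat

/-!
Algebraic numbers of bounded degree over a number field which are near to no conjugates of given points
of the projective line (helper file).
-/

set_option autoImplicit false

namespace Pool.Agent.V7H20.ZF

open Polynomial Pool.Agent.Y199.DM Pool.Agent.Y199.ZF

/-- The conjugates of a point of the projective line over `E`. -/
def ConjugatesOver (E : IntermediateField ℚ ℂ) : Option ℂ → Set (Option ℂ)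
  | some a => {b | ∃ z : ℂ, b = some z ∧ aeval z (minpoly E a) = 0}
  | none => {none}

variable {E : IntermediateField ℚ ℂ}

theorem exists_aut {x y : ℂ} (hx : IsIntegral E x) (hy : aeval y (minpoly E x) = 0) :
    ∃ (hy' : IsIntegral E y) (σ : algebraicClosure E ℂ ≃ₐ[E] algebraicClosure E ℂ),
      σ ⟨x, mem_algebraicClosure_iff'.2 hx⟩ = ⟨y, mem_algebraicClosure_iff'.2 hy'⟩ := by
  classical
  have hyi : IsIntegral E y := ⟨minpoly E x, minpoly.monic hx, hy⟩
  have hmin : minpoly E x = minpoly E y :=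
    minpoly.eq_of_irreducible_of_monic (minpoly.irreducible hx) hy (minpoly.monic hx)
  have hcl : IsAlgClosure E (algebraicClosure E ℂ) := inferInstance
  have hN : Normal E (algebraicClosure E ℂ) := IsAlgClosure.normal E (algebraicClosure E ℂ)
  have h1 : ∀ z : algebraicClosure E ℂ, minpoly E z = minpoly E (z : ℂ) := fun z =>
    (minpoly.algebraMap_eq (A := E) (B := algebraicClosure E ℂ) (B' := ℂ)
      (algebraMap (algebraicClosure E ℂ) ℂ).injective z).symm
  have hconj : IsConjRoot E (⟨y, mem_algebraicClosure_iff'.2 hyi⟩ : algebraicClosure E ℂ)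
      ⟨x, mem_algebraicClosure_iff'.2 hx⟩ := by
    change minpoly E (⟨y, mem_algebraicClosure_iff'.2 hyi⟩ : algebraicClosure E ℂ) =
      minpoly E (⟨x, mem_algebraicClosure_iff'.2 hx⟩ : algebraicClosure E ℂ)
    rw [h1, h1, hmin]
  obtain ⟨σ, hσ⟩ := isConjRoot_iff_exists_algEquiv.1 hconj
  exact ⟨hyi, σ, hσ⟩

theorem root_of_aut (σ : algebraicClosure E ℂ ≃ₐ[E] algebraicClosure E ℂ)
    (x : algebraicClosure E ℂ) : aeval ((σ x : algebraicClosure E ℂ) : ℂ)
      (minpoly E (x : ℂ)) = 0 := by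
  have h1 : minpoly E x = minpoly E (x : ℂ) :=
    (minpoly.algebraMap_eq (A := E) (B := algebraicClosure E ℂ) (B' := ℂ)
      (algebraMap (algebraicClosure E ℂ) ℂ).injective x).symm
  have h4 : aeval (σ x) (minpoly E x) = 0 := by
    have h5 : aeval (σ x) (minpoly E x) = σ (aeval x (minpoly E x)) :=
      (Polynomial.aeval_algHom_apply σ.toAlgHom x (minpoly E x))
    rw [h5, minpoly.aeval, map_zero]
  rw [h1] at h4
  have h6 : aeval ((algebraMap (algebraicClosure E ℂ) ℂ) (σ x)) (minpoly E (x : ℂ)) =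
      (algebraMap (algebraicClosure E ℂ) ℂ) (aeval (σ x) (minpoly E (x : ℂ))) :=
    Polynomial.aeval_algebraMap_apply ℂ (σ x) (minpoly E (x : ℂ))
  rw [h4, map_zero] at h6
  exact h6

theorem conj_trans {a b c : Option ℂ} (ha : ∀ z ∈ a, IsIntegral E z)
    (hb : b ∈ ConjugatesOver E a) (hc : c ∈ ConjugatesOver E b) : c ∈ ConjugatesOver E a := by
  rcases a with _ | x
  · have h1 : b = none := hb
    rw [h1] at hc
    exact hc
  · obtain ⟨y, rfl, hy⟩ := hb
    obtain ⟨w, rfl, hw⟩ := hc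
    refine ⟨w, rfl, ?_⟩
    rw [minpoly.eq_of_irreducible_of_monic (minpoly.irreducible (ha x rfl)) hy
      (minpoly.monic (ha x rfl))]
    exact hw

theorem conj_finite {a : Option ℂ} (ha : ∀ z ∈ a, IsIntegral E z) :
    (ConjugatesOver E a).Finite := by
  rcases a with _ | x
  · exact Set.finite_singleton _
  · refine ((Polynomial.rootSet_finite (minpoly E x) ℂ).image some).subset ?_
    rintro b ⟨z, rfl, hz⟩
    exact ⟨z, (Polynomial.mem_rootSet.2 ⟨minpoly.ne_zero (ha x rfl), hz⟩), rfl⟩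

theorem conj_integral {a b : Option ℂ} (ha : ∀ z ∈ a, IsIntegral E z)
    (hb : b ∈ ConjugatesOver E a) : ∀ z ∈ b, IsIntegral E z := by
  rcases a with _ | x
  · have h1 : b = none := hb
    rw [h1]
    intro z hz
    exact absurd hz (Option.not_mem_none z)
  · obtain ⟨y, rfl, hy⟩ := hb
    intro z hz
    have h1 : y = z := Option.some_injective _ hz
    subst h1
    exact ⟨minpoly E x, minpoly.monic (ha x rfl), hy⟩

/-- The degree is not changed by a change of the coordinate. -/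
theorem degree_mob {t a0 : ℂ} (ha0 : a0 ∈ E) (ht : IsIntegral E t) (hta : t ≠ a0) :
    IsIntegral E (t - a0)⁻¹ ∧
      (minpoly E (t - a0)⁻¹).natDegree = (minpoly E t).natDegree := by
  have ha : IsIntegral E a0 := isIntegral_algebraMap (x := (⟨a0, ha0⟩ : E))
  have hu : IsIntegral E (t - a0)⁻¹ := (ht.sub ha).inv
  refine ⟨hu, ?_⟩
  rw [← IntermediateField.adjoin.finrank hu, ← IntermediateField.adjoin.finrank ht]
  have haK : ∀ K : IntermediateField E ℂ, a0 ∈ K := fun K => K.algebraMap_mem ⟨a0, ha0⟩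
  have h1 : IntermediateField.adjoin E {(t - a0)⁻¹} = IntermediateField.adjoin E {t} := by
    apply le_antisymm
    · rw [IntermediateField.adjoin_simple_le_iff]
      exact inv_mem (sub_mem (IntermediateField.mem_adjoin_simple_self E t) (haK _))
    · rw [IntermediateField.adjoin_simple_le_iff]
      have h2 : t = ((t - a0)⁻¹)⁻¹ + a0 := by rw [inv_inv, sub_add_cancel]
      have h3 : ((t - a0)⁻¹)⁻¹ + a0 ∈ IntermediateField.adjoin E {(t - a0)⁻¹} :=
        add_mem (inv_mem (IntermediateField.mem_adjoin_simple_self E (t - a0)⁻¹)) (haK _)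
      rwa [← h2] at h3
  rw [h1]

theorem not_near_of_far {s : Finset ℂ} {a u : ℂ} (h : Far (s : Set ℂ) u (some a)) :
    ¬ Near s a u := by
  rintro ⟨p, hp, τ, hτ, hlt⟩
  exact h (ringOf τ) (fun z hz => (mem_ringOf τ).2 (hτ z hz)) (val_ringOf τ hlt)

/-- All but finitely many algebraic numbers of degree at most `d` are near to a conjugate of one of
`2 d + 1` points. -/
theorem finite_far_deg (E : IntermediateField ℚ ℂ) [FiniteDimensional ℚ E] (W : Finset ℂ) (d : ℕ)
    (b : Fin (2 * d + 1) → Option ℂ) (hb : Function.Injective b)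
    (halg : ∀ i, ∀ z ∈ b i, IsAlgebraic ℚ z) :
    {t : ℂ | IsAlgebraic E t ∧ (minpoly E t).natDegree ≤ d ∧
      ∀ i, ∀ b' ∈ ConjugatesOver E (b i), Far (W : Set ℂ) t b'}.Finite := by
  classical
  have hint : ∀ i, ∀ z ∈ b i, IsIntegral E z := fun i z hz =>
    ((halg i z hz).extendScalars (algebraMap ℚ E).injective).isIntegral
  let C : Set (Option ℂ) := ⋃ i, ConjugatesOver E (b i)
  have hC : C.Finite := Set.finite_iUnion fun i => conj_finite (hint i)
  have hself : ∀ i, b i ∈ ConjugatesOver E (b i) := by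
    intro i
    rcases hi : b i with _ | z
    · rfl
    · exact ⟨z, rfl, minpoly.aeval E z⟩
  haveI : Finite C := hC
  obtain ⟨k, hk⟩ := exists_nat (fun x : C => (x : Option ℂ))
  let a0 : ℂ := (k : ℂ)
  have hk' : ∀ i, ∀ b' ∈ ConjugatesOver E (b i), b' ≠ some a0 := fun i b' hb' =>
    hk ⟨b', Set.mem_iUnion.2 ⟨i, hb'⟩⟩
  have ha0E : a0 ∈ E := natCast_mem E k
  let W' : Finset ℂ := W ∪ ({a0} ∪ (hC.toFinset.image (fun x => x.getD 0) ∪
    hC.toFinset.image (mob a0)))
  have hW0 : (W : Set ℂ) ⊆ W' := by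
    intro z hz
    simp only [W', Finset.coe_union, Set.mem_union]
    exact Or.inl hz
  have hW1 : a0 ∈ (W' : Set ℂ) := by simp [W']
  have hW2 : ∀ i, ∀ b' ∈ ConjugatesOver E (b i), b'.getD 0 ∈ (W' : Set ℂ) := by
    intro i b' hb'
    simp only [W', Finset.coe_union, Set.mem_union, Finset.mem_coe, Finset.mem_image,
      Set.Finite.mem_toFinset]
    exact Or.inr (Or.inr (Or.inl ⟨b', Set.mem_iUnion.2 ⟨i, hb'⟩, rfl⟩))
  have hW3 : ∀ i, ∀ b' ∈ ConjugatesOver E (b i), mob a0 b' ∈ (W' : Set ℂ) := by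
    intro i b' hb'
    simp only [W', Finset.coe_union, Set.mem_union, Finset.mem_coe, Finset.mem_image,
      Set.Finite.mem_toFinset]
    exact Or.inr (Or.inr (Or.inr ⟨b', Set.mem_iUnion.2 ⟨i, hb'⟩, rfl⟩))
  -- the points in the new coordinate
  let c : Fin (2 * d + 1) → ℂ := fun i => mob a0 (b i)
  have hc : Function.Injective c := fun i j hij =>
    hb (mob_inj (hk' i _ (hself i)) (hk' j _ (hself j)) hij)
  have hcalg : ∀ i, IsAlgebraic ℚ (c i) := by
    intro i
    rcases hi : b i with _ | z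
    · simp only [c, hi, mob_none]
      exact isAlgebraic_zero
    · simp only [c, hi, mob_some]
      have h1 : IsAlgebraic ℚ a0 := by
        have h2 := isAlgebraic_algebraMap (R := ℚ) (A := ℂ) (k : ℚ)
        rw [map_natCast] at h2
        exact h2
      exact ((halg i z (by rw [hi]; rfl)).sub h1).inv
  have hle : ∀ e : Fin (d + 1), 2 * (e : ℕ) + 1 ≤ 2 * d + 1 := fun e => by
    have := e.2
    omega
  have hfin : ∀ e : Fin (d + 1), {u : ℂ | IsAlgebraic E u ∧ (minpoly E u).natDegree = (e : ℕ) ∧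
      ∀ i : Fin (2 * (e : ℕ) + 1), ∀ c' : ℂ,
        aeval c' (minpoly E (c (Fin.castLE (hle e) i))) = 0 → ¬ Near W' c' u}.Finite := by
    intro e
    exact finite_core E W' e (fun i => c (Fin.castLE (hle e) i))
      (hc.comp (Fin.castLE_injective _)) (fun i => hcalg _)
  refine (((Set.finite_iUnion fun e => hfin e).preimage (f := fun t : ℂ => (t - a0)⁻¹)
    (fun x _ y _ h => ?_)).union (Set.finite_singleton a0)).subset ?_
  · have h1 : x - a0 = y - a0 := inv_injective h
    exact sub_left_injective h1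
  rintro t ⟨ht, htd, hfar⟩
  by_cases hta : t = a0
  · exact Or.inr hta
  left
  obtain ⟨hu, hudeg⟩ := degree_mob ha0E ht.isIntegral hta
  refine Set.mem_iUnion.2 ⟨⟨(minpoly E t).natDegree, by omega⟩, hu.isAlgebraic, hudeg,
    fun i c' hc' => ?_⟩
  set i' : Fin (2 * d + 1) := Fin.castLE (hle ⟨(minpoly E t).natDegree, by omega⟩) i with hi'
  -- the conjugate
  obtain ⟨b', hb', hbc⟩ : ∃ b' ∈ ConjugatesOver E (b i'), mob a0 b' = c' := by
    rcases hi : b i' with _ | z
    · refine ⟨none, rfl, ?_⟩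
      simp only [c, hi, mob_none] at hc'
      rw [minpoly.zero, aeval_X] at hc'
      rw [mob_none, hc']
    · have hz : IsIntegral E z := hint i' z (by rw [hi]; rfl)
      have ha : IsIntegral E a0 := isIntegral_algebraMap (x := (⟨a0, ha0E⟩ : E))
      have hcz : c i' = (z - a0)⁻¹ := by
        simp only [c, hi, mob_some]
      have hz0 : z - a0 ≠ 0 := fun h0 => hk' i' _ (hself i') (by
        rw [hi, sub_eq_zero.1 h0])
      rw [hcz] at hc'
      obtain ⟨hy', σ, hσ⟩ := exists_aut ((hz.sub ha).inv) hc'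
      let z' : algebraicClosure E ℂ := ⟨z, mem_algebraicClosure_iff'.2 hz⟩
      let u' : algebraicClosure E ℂ := ⟨(z - a0)⁻¹, mem_algebraicClosure_iff'.2 ((hz.sub ha).inv)⟩
      have hu' : z' = u'⁻¹ + algebraMap E _ ⟨a0, ha0E⟩ := by
        apply Subtype.ext
        change z = ((z - a0)⁻¹)⁻¹ + a0
        rw [inv_inv, sub_add_cancel]
      have hσz : ((σ z' : algebraicClosure E ℂ) : ℂ) = c'⁻¹ + a0 := by
        rw [hu', map_add, map_inv₀, AlgEquiv.commutes, hσ]
        rfl
      refine ⟨some (c'⁻¹ + a0), ⟨_, rfl, ?_⟩, ?_⟩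
      · have h1 := root_of_aut σ z'
        rw [hσz] at h1
        exact h1
      · rw [mob_some, add_sub_cancel_right, inv_inv]
  rw [← hbc]
  exact not_near_of_far ((hfar i' b' hb').mob hta (hk' i' b' hb') hW0 hW1 (hW2 i' b' hb')
    (hW3 i' b' hb'))

/-- Many different points. -/
theorem many_of {X : Type} {P : Set X} {k : ℕ} (h : ¬ P.encard ≤ k) :
    ∃ b : Fin (k + 1) → X, Function.Injective b ∧ ∀ i, b i ∈ P := by
  classical
  push Not at h
  obtain ⟨Q, hQ, hc⟩ := Set.exists_subset_encard_eq (s := P) (k := ((k + 1 : ℕ) : ℕ∞)) (by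
    have h1 : ((k : ℕ) : ℕ∞) + 1 ≤ P.encard := Order.add_one_le_of_lt h
    push_cast
    exact h1)
  have hfin : Q.Finite := Set.finite_of_encard_eq_coe hc
  have hcard : hfin.toFinset.card = k + 1 := by
    have h2 : ((hfin.toFinset.card : ℕ) : ℕ∞) = ((k + 1 : ℕ) : ℕ∞) := by
      rw [← Set.encard_coe_eq_coe_finsetCard, Set.Finite.coe_toFinset, hc]
    exact_mod_cast h2
  refine ⟨fun i => (hfin.toFinset.equivFin.symm (Fin.cast hcard.symm i) : X), ?_, fun i => ?_⟩
  · intro a b hab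
    exact Fin.cast_injective _ (hfin.toFinset.equivFin.symm.injective (Subtype.ext hab))
  · exact hQ ((Set.Finite.mem_toFinset hfin).1
      (hfin.toFinset.equivFin.symm (Fin.cast hcard.symm i)).2)

/-- The exceptional parameters of bounded degree. -/
theorem finite_exc_deg {M : ℕ} (E : IntermediateField ℚ ℂ) [FiniteDimensional ℚ E]
    (W G : Finset ℂ) (d : ℕ) (Z : Set (Option ℂ)) (hZ : ∀ z ∈ Z, ConjugatesOver E z ⊆ Z)
    (hZa : ∀ z ∈ Z, ∀ x ∈ z, IsAlgebraic ℚ x) (α : Fin M → Option ℂ)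
    (hα : ∀ l, ∀ x ∈ α l, IsAlgebraic ℚ x) (I : Finset (Fin M))
    (h : ¬ (Z ∪ ⋃ l ∈ I, ConjugatesOver E (α l)).encard ≤ (2 * d : ℕ)) :
    {t : ℂ | IsAlgebraic E t ∧ (minpoly E t).natDegree ≤ d ∧
      (∀ z ∈ Z, IntegralAt (G : Set ℂ) t z) ∧
      ∀ l ∈ I, ∀ b ∈ ConjugatesOver E (α l), Far (W : Set ℂ) t b}.Finite := by
  classical
  obtain ⟨b, hb, hbP⟩ := many_of h
  have hαi : ∀ l, ∀ x ∈ α l, IsIntegral E x := fun l x hx =>
    ((hα l x hx).extendScalars (algebraMap ℚ E).injective).isIntegral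
  haveI hEalg : Algebra.IsAlgebraic ℚ E := Algebra.IsAlgebraic.of_finite ℚ E
  have hbalg : ∀ i, ∀ z ∈ b i, IsAlgebraic ℚ z := by
    intro i z hz
    rcases hbP i with hi | hi
    · exact hZa _ hi z hz
    · obtain ⟨l, hl, hi⟩ := Set.mem_iUnion₂.1 hi
      exact (conj_integral (hαi l) hi z hz).isAlgebraic.restrictScalars ℚ
  refine (finite_far_deg E (W ∪ G) d b hb hbalg).subset ?_
  rintro t ⟨ht, htd, h1, h2⟩
  refine ⟨ht, htd, fun i b' hb' => ?_⟩
  rcases hbP i with hi | hi
  · refine (h1 b' (hZ _ hi hb')).far.mono ?_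
    intro z hz
    rw [Finset.coe_union]
    exact Or.inr hz
  · obtain ⟨l, hl, hi⟩ := Set.mem_iUnion₂.1 hi
    refine (h2 l hl b' (conj_trans (hαi l) hi hb')).mono ?_
    intro z hz
    rw [Finset.coe_union]
    exact Or.inl hz

end Pool.Agent.V7H20.ZF
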