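import Pool.Agent.Y910.Z.Z3
import Pool.Agent.V7H20.ZF.Base

/-!
Elements of finitely generated fields which are near to none of several given points of the
projective line at all places (helper file).
-/

set_option autoImplicit false

namespace Pool.Agent.V7H20.ZF

open Pool.Agent.Y910.Z

/-- All but finitely many elements of a finitely generated field are near to one of three
points. -/
theorem finite_far (W F : Finset ℂ) (b : Fin 3 → Option ℂ) (hb : Function.Injective b) :
    {t : ℂ | t ∈ Subfield.closure (F : Set ℂ) ∧ ∀ i, Far (W : Set ℂ) t (b i)}.Finite := by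
  classical
  obtain ⟨k, hk⟩ := exists_nat b
  let a0 : ℂ := (k : ℂ)
  let c : Fin 3 → ℂ := fun i => mob a0 (b i)
  have hc : Function.Injective c := fun i j hij => hb (mob_inj (hk i) (hk j) hij)
  let B : Finset ℂ := Finset.univ.image fun i => (b i).getD 0
  let W' : Finset ℂ := W ∪ ({a0} ∪ (B ∪ Finset.univ.image c))
  have hfin := fin_field (k := ℂ) W' F (hc.ne (show (0 : Fin 3) ≠ 1 by decide))
    (hc.ne (show (0 : Fin 3) ≠ 2 by decide)) (hc.ne (show (1 : Fin 3) ≠ 2 by decide))
  refine ((hfin.preimage (f := fun t : ℂ => (t - a0)⁻¹) (fun x _ y _ h => ?_)).union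
    (Set.finite_singleton a0)).subset ?_
  · have h1 : x - a0 = y - a0 := inv_injective h
    exact sub_left_injective h1
  rintro t ⟨htF, ht⟩
  by_cases hta : t = a0
  · exact Or.inr hta
  left
  have hW0 : (W : Set ℂ) ⊆ W' := by
    intro z hz
    simp only [W', Finset.coe_union, Set.mem_union]
    exact Or.inl hz
  have hW1 : a0 ∈ (W' : Set ℂ) := by simp [W']
  have hW2 : ∀ i, (b i).getD 0 ∈ (W' : Set ℂ) := by
    intro i
    simp only [W', B, Finset.coe_union, Set.mem_union, Finset.mem_coe, Finset.mem_image,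
      Finset.mem_univ, true_and]
    exact Or.inr (Or.inr (Or.inl ⟨i, rfl⟩))
  have hW3 : ∀ i, c i ∈ (W' : Set ℂ) := by
    intro i
    simp only [W', Finset.coe_union, Set.mem_union, Finset.mem_coe, Finset.mem_image,
      Finset.mem_univ, true_and]
    exact Or.inr (Or.inr (Or.inr ⟨i, rfl⟩))
  have key : ∀ i, Bad (W' : Set ℂ) (t - a0)⁻¹ (c i) := by
    intro i
    by_contra hbad
    obtain ⟨V, hV1, hV2, -⟩ := exists_place (k := ℂ) (W' : Set ℂ) (hW3 i) hbad
      (Empty.elim : Empty → ℂ)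
      (algebraicIndependent_empty_type_iff.2 (algebraMap ℂ ℂ).injective)
    exact (ht i).mob hta (hk i) hW0 hW1 (hW2 i) (hW3 i) V (fun z hz => hV2 z hz) hV1
  refine ⟨?_, key 0, key 1, key 2⟩
  have hk' : a0 ∈ Subfield.closure (F : Set ℂ) := natCast_mem _ k
  exact inv_mem (sub_mem htF hk')

/-- The conjugates of a point over the field generated by `F`. -/
def Conjugates (F : Set ℂ) (a : Option ℂ) : Set (Option ℂ) :=
  {b | ∃ σ : ℂ ≃+* ℂ, (∀ x ∈ F, σ x = x) ∧ b = a.map σ}

theorem fixed {F : Set ℂ} (σ : ℂ ≃+* ℂ) (hσ : ∀ x ∈ F, σ x = x) {t : ℂ}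
    (ht : t ∈ Subfield.closure F) : σ t = t := by
  have h1 : Set.EqOn (σ : ℂ →+* ℂ) (RingHom.id ℂ) F := fun x hx => hσ x hx
  exact RingHom.eqOn_field_closure h1 ht

theorem three_of {X : Type} {P : Set X} (h : ¬ P.encard ≤ 2) :
    ∃ b : Fin 3 → X, Function.Injective b ∧ ∀ i, b i ∈ P := by
  push Not at h
  obtain ⟨Q, hQ, hc⟩ := Set.exists_subset_encard_eq (s := P) (k := 3) (by
    have h1 : (2 : ℕ∞) + 1 ≤ P.encard := Order.add_one_le_of_lt h
    have h2 : (2 : ℕ∞) + 1 = 3 := by norm_num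
    rwa [h2] at h1)
  obtain ⟨x, y, z, hxy, hxz, hyz, rfl⟩ := Set.encard_eq_three.1 hc
  refine ⟨![x, y, z], ?_, ?_⟩
  · intro i j hij
    fin_cases i <;> fin_cases j
    · rfl
    · exact absurd hij hxy
    · exact absurd hij hxz
    · exact absurd hij.symm hxy
    · rfl
    · exact absurd hij hyz
    · exact absurd hij.symm hxz
    · exact absurd hij.symm hyz
    · rfl
  · intro i
    fin_cases i
    · exact hQ (by simp)
    · exact hQ (by simp)
    · exact hQ (by simp)

/-- The exceptional parameters: the parameters in a finitely generated field, integral with respect to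
the points in `Z`, which are near to none of the points `α_l`, `l ∈ I`. -/
theorem finite_exc {M : ℕ} (W F G : Finset ℂ) (Z : Set (Option ℂ)) (α : Fin M → Option ℂ)
    (I : Finset (Fin M))
    (h : ¬ (Z ∪ ⋃ l ∈ I, Conjugates (F : Set ℂ) (α l)).encard ≤ 2) :
    {t : ℂ | t ∈ Subfield.closure (F : Set ℂ) ∧ (∀ z ∈ Z, IntegralAt (G : Set ℂ) t z) ∧
      ∀ l ∈ I, Far (W : Set ℂ) t (α l)}.Finite := by
  classical
  obtain ⟨b, hb, hbP⟩ := three_of h
  have hW : ∀ i, ∃ Wi : Finset ℂ, ∀ t ∈ Subfield.closure (F : Set ℂ),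
      (∀ z ∈ Z, IntegralAt (G : Set ℂ) t z) → (∀ l ∈ I, Far (W : Set ℂ) t (α l)) →
      Far (Wi : Set ℂ) t (b i) := by
    intro i
    rcases hbP i with hi | hi
    · exact ⟨G, fun t _ h1 _ => (h1 _ hi).far⟩
    · obtain ⟨l, hl, σ, hσ, hbi⟩ := Set.mem_iUnion₂.1 hi
      refine ⟨W.image σ, fun t ht _ h2 => ?_⟩
      rw [hbi, Finset.coe_image]
      exact (h2 l hl).conj σ (fixed σ hσ ht)
  choose Wi hWi using hW
  refine (finite_far (Finset.univ.biUnion Wi) F b hb).subset ?_
  rintro t ⟨ht, h1, h2⟩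
  refine ⟨ht, fun i => (hWi i t ht h1 h2).mono ?_⟩
  intro z hz
  rw [Finset.coe_biUnion]
  exact Set.mem_biUnion (Finset.mem_coe.2 (Finset.mem_univ i)) hz

end Pool.Agent.V7H20.ZF
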