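import Pool.Agent.Y199.SG.Siegel
import Pool.Agent.N302.MB.UE

/-!
The unit equation in several variables: a distinguished term is equal to another one up to finitely
many factors (helper file).
-/

set_option autoImplicit false

namespace Pool.Agent.V7H20.ZF

open Polynomial NumberField IsDedekindDomain Pool.Agent.Y199.DM Pool.Agent.Y199.SG
open Pool.Agent.Helper259.AbsHt
open Pool.Agent.Y556.TW (Ov mem_Ov bad_finite GS GS_fg mem_GS)

/-- In a solution of a unit equation a given term has one of finitely many quotients with some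
other term. -/
theorem partner0 (Γ : Subgroup Qbarˣ) (hΓ : Γ.FG) {W : Type} [Fintype W] [DecidableEq W] (w0 : W)
    (c : W → Qbarˣ) :
    ∃ R : Set Qbar, R.Finite ∧ ∀ u : W → Qbarˣ, (∀ w, u w ∈ Γ) →
      ∑ w, (c w : Qbar) * (u w : Qbar) = 0 → ∃ w, w ≠ w0 ∧ (u w0 : Qbar) / (u w : Qbar) ∈ R := by
  classical
  have hΓ' : (Γ ⊔ Subgroup.closure (Set.range c)).FG :=
    hΓ.sup ⟨Finset.univ.image c, by simp⟩
  choose R hR1 hR2 using Pool.Agent.N302.MB.ratios_fg _ hΓ'
  refine ⟨⋃ r ∈ Finset.range (Fintype.card W), ⋃ w : W, ⋃ w' : W,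
    (fun x : Qbar => x * ((c w' : Qbar) / (c w : Qbar))) '' R r, ?_, ?_⟩
  · refine Set.Finite.biUnion (Finset.finite_toSet _) fun r _ => ?_
    exact Set.finite_iUnion fun w => Set.finite_iUnion fun w' => (hR1 r).image _
  · intro u hu hsum
    have hex : ∃ n, ∃ J : Finset W, J.card = n ∧ w0 ∈ J ∧
        ∑ w ∈ J, (c w : Qbar) * (u w : Qbar) = 0 :=
      ⟨_, Finset.univ, rfl, Finset.mem_univ _, hsum⟩
    obtain ⟨J, hJn, hJ0, hJs⟩ := Nat.find_spec hex
    have hmin : ∀ J' : Finset W, w0 ∈ J' → ∑ w ∈ J', (c w : Qbar) * (u w : Qbar) = 0 →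
        J.card ≤ J'.card := by
      intro J' h1 h2
      rw [hJn]
      exact Nat.find_min' hex ⟨J', rfl, h1, h2⟩
    have h1 : 1 < J.card := by
      by_contra h
      have h2 : J.card = 1 := by
        have := Finset.card_pos.2 ⟨w0, hJ0⟩
        omega
      obtain ⟨w, hw⟩ := Finset.card_eq_one.1 h2
      rw [hw, Finset.sum_singleton] at hJs
      exact mul_ne_zero (c w).ne_zero (u w).ne_zero hJs
    obtain ⟨r, hr⟩ : ∃ r, J.card = r + 1 := ⟨J.card - 1, by omega⟩
    let e : Fin (r + 1) ≃ J := (finCongr hr.symm).trans J.equivFin.symm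
    let ι : Fin (r + 1) ↪ W := e.toEmbedding.trans (Function.Embedding.subtype _)
    have hι : ∀ i, ι i ∈ J := fun i => (e i).2
    have hsumE : ∀ I : Finset (Fin (r + 1)), ∑ i ∈ I, ((c (ι i) * u (ι i) : Qbarˣ) : Qbar) =
        ∑ w ∈ I.map ι, (c w : Qbar) * (u w : Qbar) := by
      intro I
      rw [Finset.sum_map]
      rfl
    have huniv : (Finset.univ : Finset (Fin (r + 1))).map ι = J := by
      ext w
      simp only [Finset.mem_map, Finset.mem_univ, true_and]
      constructor
      · rintro ⟨a, rfl⟩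
        exact hι a
      · intro hw
        exact ⟨e.symm ⟨w, hw⟩, by simp [ι]⟩
    have h2 := hR2 r (fun i => c (ι i) * u (ι i)) (fun i => mul_mem
      (Subgroup.mem_sup_right (Subgroup.subset_closure ⟨_, rfl⟩))
      (Subgroup.mem_sup_left (hu _))) (by
        rw [hsumE, huniv]
        exact hJs) (by
        intro I hI h3
        rw [hsumE] at h3
        have hsub : I.map ι ⊆ J := by
          rw [← huniv]
          exact Finset.map_subset_map.2 (Finset.subset_univ _)
        have h4 : J.card ≤ (I.map ι).card := by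
          by_cases h0 : w0 ∈ I.map ι
          · exact hmin _ h0 h3
          · exfalso
            have h5 : ∑ w ∈ J \ I.map ι, (c w : Qbar) * (u w : Qbar) = 0 := by
              have h6 := Finset.sum_sdiff (f := fun w => (c w : Qbar) * (u w : Qbar)) hsub
              rw [h3, add_zero, hJs] at h6
              exact h6
            have h6 := hmin _ (Finset.mem_sdiff.2 ⟨hJ0, h0⟩) h5
            rw [Finset.card_sdiff_of_subset hsub] at h6
            have h7 : 0 < (I.map ι).card := Finset.card_pos.2 (hI.map)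
            have h8 := Finset.card_le_card hsub
            omega
        rw [Finset.card_map] at h4
        rw [← Finset.card_eq_iff_eq_univ, Fintype.card_fin]
        have h5 := Finset.card_le_univ I
        rw [Fintype.card_fin] at h5
        omega)
    obtain ⟨i0, hi0⟩ : ∃ i0, ι i0 = w0 := ⟨e.symm ⟨w0, hJ0⟩, by simp [ι]⟩
    obtain ⟨j, hj⟩ : ∃ j, j ≠ i0 := by
      by_contra hcon
      push Not at hcon
      have h3 : (Finset.univ : Finset (Fin (r + 1))).card ≤ 1 :=
        Finset.card_le_one.2 fun a _ b _ => (hcon a).trans (hcon b).symm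
      rw [Finset.card_univ, Fintype.card_fin] at h3
      omega
    refine ⟨ι j, fun h => hj (ι.injective (h.trans hi0.symm)), ?_⟩
    simp only [Set.mem_iUnion]
    refine ⟨r, ?_, w0, ι j, _, h2 i0 j, ?_⟩
    · rw [Finset.mem_range]
      have := Finset.card_le_univ J
      omega
    · have h6 := (c w0).ne_zero
      have h7 := (c (ι j)).ne_zero
      have h8 := (u (ι j)).ne_zero
      rw [hi0]
      simp only [Units.val_mul]
      field_simp

theorem val_factorial {L : IntermediateField ℚ Qbar} [NumberField L] (v : HeightOneSpectrum (𝓞 L))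
    (D : ℕ) (hv : ∀ p : ℕ, p.Prime → p ≤ D → ¬ v.valuation L (p : L) < 1) :
    v.valuation L ((D.factorial : ℕ) : L) = 1 := by
  have h : ∀ n : ℕ, n ≤ D → v.valuation L ((n.factorial : ℕ) : L) = 1 := by
    intro n
    induction n with
    | zero => intro _; simp
    | succ n ih =>
      intro hn
      rw [Nat.factorial_succ, Nat.cast_mul, map_mul, ih (by omega), mul_one]
      exact val_eq_one v D hv (n + 1) (Nat.succ_ne_zero n) hn
  exact h D le_rfl

/-- Transfer of integrality. -/
theorem isIntegral_map {A : IntermediateField ℚ ℂ} {L : IntermediateField ℚ Qbar} (ψ : A →+* L)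
    (D k : ℕ) (x : A) :
    IsIntegral ℤ ((D : ℂ) ^ k * (x : ℂ)) ↔ IsIntegral ℤ ((D : L) ^ k * ψ x) := by
  have e1 : (D : ℂ) ^ k * (x : ℂ) = (algebraMap A ℂ) ((D : A) ^ k * x) := by
    rw [map_mul, map_pow, map_natCast]
    rfl
  have e2 : (D : L) ^ k * ψ x = ψ ((D : A) ^ k * x) := by
    rw [map_mul, map_pow, map_natCast]
  rw [e1, e2]
  have h1 : IsIntegral ℤ ((algebraMap A ℂ) ((D : A) ^ k * x)) ↔
      IsIntegral ℤ ((D : A) ^ k * x) :=
    isIntegral_algHom_iff (algebraMap A ℂ).toIntAlgHom (algebraMap A ℂ).injective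
  have h2 : IsIntegral ℤ (ψ ((D : A) ^ k * x)) ↔ IsIntegral ℤ ((D : A) ^ k * x) :=
    isIntegral_algHom_iff ψ.toIntAlgHom ψ.injective
  rw [h1, h2]

/-- The embedding of a number field in `ℂ`. -/
theorem exists_emb (A : IntermediateField ℚ ℂ) [FiniteDimensional ℚ A] :
    ∃ (L : IntermediateField ℚ Qbar) (_ : NumberField L), Nonempty (A →+* L) := by
  haveI : Algebra.IsAlgebraic ℚ A := Algebra.IsAlgebraic.of_finite ℚ A
  let φ : A →ₐ[ℚ] Qbar := IsAlgClosed.lift
  let L : IntermediateField ℚ Qbar := φ.fieldRange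
  haveI hL : FiniteDimensional ℚ L :=
    inferInstanceAs (FiniteDimensional ℚ (LinearMap.range φ.toLinearMap))
  haveI hNL : NumberField L := ⟨⟩
  exact ⟨L, hNL, ⟨{ toFun := fun z => ⟨φ z, ⟨z, rfl⟩⟩
                    map_one' := Subtype.ext (map_one φ)
                    map_zero' := Subtype.ext (map_zero φ)
                    map_mul' := fun a b => Subtype.ext (map_mul φ a b)
                    map_add' := fun a b => Subtype.ext (map_add φ a b) }⟩⟩

/-- The unit equation in a number field in `ℂ`. -/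
theorem unit_ratio (A : IntermediateField ℚ ℂ) [FiniteDimensional ℚ A] (D : ℕ) {e : ℕ}
    (c : Fin (e + 1) → A) (hc : ∀ i, c i ≠ 0) :
    ∃ R : Set A, R.Finite ∧ ∀ u : Fin (e + 1) → A, (∀ i, u i ≠ 0) →
      (∀ i j, ∃ k : ℕ, IsIntegral ℤ (((D.factorial : ℕ) : ℂ) ^ k * ((u i / u j : A) : ℂ))) →
      ∑ i, c i * u i = 0 → ∃ j, j ≠ 0 ∧ u 0 / u j ∈ R := by
  classical
  obtain ⟨L, hL, ⟨ψ⟩⟩ := exists_emb A
  have hψ : Function.Injective ψ := ψ.injective
  have hψ0 : ∀ x : A, x ≠ 0 → ((ψ x : L) : Qbar) ≠ 0 := by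
    intro x hx h
    have h1 : ψ x = 0 := Subtype.ext h
    exact hx ((map_eq_zero ψ).1 h1)
  let S : Set (HeightOneSpectrum (𝓞 L)) :=
    {v | ∃ p : ℕ, p.Prime ∧ p ≤ D ∧ v.valuation L (p : L) < 1}
  have hS : S.Finite := finite_small (L := L) D
  obtain ⟨R, hR, hRu⟩ := partner0 (GS S) (GS_fg S hS) (0 : Fin (e + 1))
    fun i => Units.mk0 ((ψ (c i) : L) : Qbar) (hψ0 _ (hc i))
  refine ⟨{x : A | ((ψ x : L) : Qbar) ∈ R}, hR.preimage fun x _ y _ h => hψ (Subtype.ext h),
    fun u hu hint hsum => ?_⟩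
  have hval : ∀ i j, ∀ v, v ∉ S → v.valuation L (ψ (u i / u j)) = 1 := by
    intro i j v hv
    have hv' : ∀ p : ℕ, p.Prime → p ≤ D → ¬ v.valuation L (p : L) < 1 :=
      fun p hp hle hlt' => hv ⟨p, hp, hle, hlt'⟩
    have h1 := val_factorial v D hv'
    have h2 : ∀ i j, v.valuation L (ψ (u i / u j)) ≤ 1 := by
      intro i j
      obtain ⟨k, hk⟩ := hint i j
      exact val_le_of_int v h1 ((isIntegral_map ψ _ k _).1 hk)
    refine le_antisymm (h2 i j) ?_
    have h3 := h2 j i
    have h4 : ψ (u i / u j) * ψ (u j / u i) = 1 := by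
      rw [← map_mul, div_mul_div_cancel₀ (hu j), div_self (hu i), map_one]
    have h5 : v.valuation L (ψ (u i / u j)) * v.valuation L (ψ (u j / u i)) = 1 := by
      rw [← map_mul, h4, map_one]
    rw [← h5]
    exact (mul_le_mul' le_rfl h3).trans_eq (mul_one _)
  obtain ⟨w, hw, hwR⟩ := hRu (fun i => Units.mk0 ((ψ (u i / u 0) : L) : Qbar)
    (hψ0 _ (div_ne_zero (hu i) (hu 0)))) (fun i => mem_GS'
      (fun h => div_ne_zero (hu i) (hu 0) ((map_eq_zero ψ).1 h)) (hval i 0)) (by
    simp only [Units.val_mk0]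
    have h1 : ∑ i, c i * (u i / u 0) = 0 := by
      have h2 : ∑ i, c i * (u i / u 0) = (∑ i, c i * u i) / u 0 := by
        rw [Finset.sum_div]
        exact Finset.sum_congr rfl fun i _ => by rw [mul_div_assoc]
      rw [h2, hsum, zero_div]
    have h3 := congrArg (fun x : A => ((ψ x : L) : Qbar)) h1
    simp only [map_sum, map_mul, map_zero] at h3
    push_cast at h3
    exact h3)
  refine ⟨w, hw, ?_⟩
  change ((ψ (u 0 / u w) : L) : Qbar) ∈ R
  simp only [Units.val_mk0] at hwR
  have h1 : ((ψ (u 0 / u w) : L) : Qbar) =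
      ((ψ (u 0 / u 0) : L) : Qbar) / ((ψ (u w / u 0) : L) : Qbar) := by
    have h2 : u 0 / u w = (u 0 / u 0) / (u w / u 0) := by
      have h3 := hu 0
      have h4 := hu w
      field_simp
    conv_lhs => rw [h2]
    rw [map_div₀]
    push_cast
    rfl
  rw [h1]
  exact hwR

end Pool.Agent.V7H20.ZF
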